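import Mathlib
import Pool.Agent.Q60.D3G.StmC

/-!
# Project D3H: combinatorial lemma jobs (orbits of half systems of prime and of primitive type)

Notation as in `Pool/Agent/Q60/D3G/StmC.lean`. `G` is a finite group with a central element `c`, `Q` an
orbit (under right translation `tr`) of half systems, stable under complements; `VV Q` the span of the
functions `eps S`, `S ∈ Q`; `QQ c` the span of the odd quadratic characters `chi N`; `kerP Q` the kernel of
the action of `G` on `Q`.
-/

namespace Pool.Agent.Q60.D3H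

open Module Pool.Agent.W547.LD Pool.Agent.W547.LD.Comb Pool.Agent.Q60.D3G

/-- The structure of a relation on one orbit: the function `a` is constant on the orbit of `x` under
`N`, and the relation is a multiple of the character. -/
structure GoodF {G : Type} [Group G] [Fintype G] (c : G) (Q : Set (Set G)) (a : Set G → ℚ) (x : Set G)
    (N : Subgroup G) : Prop where
  imag : Imag c N
  half : Half c x
  stb_le : stb x ≤ N
  pos : ∀ τ ∈ N, ∀ S, a (tr τ S) = a S
  num : by classical exact (Nat.card (OrbT N x) = 1 ∨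
    (Nat.card (OrbT N x) = 3 ∧ |psum N x 1| = 1) ∨
    (6 < Q.ncard ∧ 2 * Nat.card (OrbT N x) = Q.ncard))
  ne : by classical exact (psum N x 1 ≠ 0)
  FF_eq : by classical exact (FF a = (2 * a x * psum N x 1) • chi N)

/-- The orbits which are admitted. -/
structure Fine {G : Type} [Group G] [Fintype G] (c : G) (Q : Set (Set G)) : Prop where
  stable : Stable Q
  trans : Trans Q
  compl : ∀ S ∈ Q, Sᶜ ∈ Q
  half : ∀ S ∈ Q, Half c S
  sum : ∀ (M : Subgroup G) [M.Normal] [Fintype M], ¬ M ≤ kerP Q → ∀ F ∈ VV Q,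
    ∑ h : M, rtr h.1 F ∈ QQ c
  good : ∀ a : Set G → ℚ, (∀ S, S ∉ Q → a S = 0) → (∀ S, a Sᶜ = -a S) → FF a ∈ QQ c →
    ∀ x, a x ≠ 0 → ∃ N, GoodF c Q a x N

/-- JOB C1 FSM. Orbits with at most six elements.
Proof: `sum` is `sum_mem_QQ` (`Pool/Agent/W547/LN/Sep.lean`) and linearity (as in `absorb` there);
`good` is `exists_good` (`Pool/Agent/W547/LN/Single.lean`) (`|psum N x 1| = 1` gives `psum ≠ 0`). -/
def S_fsm : Prop :=
  ∀ (G : Type) [Group G] [Fintype G] (c : G), (∀ g, c * g = g * c) → ∀ Q : Set (Set G),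
    IsOrbit c Q → Fine c Q

/-- JOB C2 CYC. Linear relations between the translates of a vector under a cyclic group of prime
order.
Proof: identify `a` with the polynomial `A = ∑ i, a i X ^ i` of degree `< p`. Let `g` be the greatest
common divisor of `A` and `X ^ p - 1 = (X - 1) Φ_p` over `ℚ`; `Φ_p` (`Polynomial.cyclotomic p ℚ`) is
irreducible and `A ≠ 0` has degree `< p`, so `g` divides `X - 1` or `Φ_p` (up to units), and
`u A + v (X ^ p - 1) = X - 1` or `= Φ_p = ∑ i, X ^ i` for some `u`, `v` (Bezout). Apply this polynomial to the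
operator `T` and the vector `t 0`: `A (T) (t 0) = ∑ a i • t i = 0`, `T ^ p (t 0) = t 0`. -/
def S_cyc : Prop :=
  ∀ (p : ℕ) [Fact p.Prime] (V : Type) [AddCommGroup V] [Module ℚ V] (T : V →ₗ[ℚ] V)
    (t : ZMod p → V) (a : ZMod p → ℚ), (∀ i, T (t i) = t (i + 1)) → a ≠ 0 → ∑ i, a i • t i = 0 →
    t 1 = t 0 ∨ ∑ i, t i = 0

/-- JOB C3 PREP. An orbit with `2 p` elements, `p` an odd prime: a cyclic numbering.
Proof: `G` acts transitively on `Q`, so `p` divides the order of the image of `G` in the permutations of `Q`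
(`act hP`, `Pool/Agent/W547/LD/Twelve.lean`); by Cauchy's theorem there is `g ∈ G` whose image has
order `p` (see also `Pool/Agent/W547/LD/PrimeOrd.lean`). `g` permutes the `p` pairs `{S, Sᶜ}`; if it
fixed one pair it would fix the elements of this pair (`p` is odd), so the number of fixed pairs is
congruent to `p`, hence to zero, modulo `p`; it is not `p` (the image of `g` is not one), so it is
zero and `g` permutes the pairs cyclically. Take `S0 ∈ Q` and `t i = eps (tr (g ^ i) S0)`: the `2 p`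
functions `± t i` are different, hence they are all. -/
def S_prep : Prop :=
  ∀ (G : Type) [Group G] [Fintype G] (c : G), (∀ g, c * g = g * c) → ∀ Q : Set (Set G), Stable Q →
    Trans Q → (∀ S ∈ Q, Sᶜ ∈ Q) → (∀ S ∈ Q, Half c S) → ∀ (p : ℕ) [Fact p.Prime], 2 < p →
    Q.ncard = 2 * p → ∃ (g : G) (S : ZMod p → Set G), (∀ i, S i ∈ Q) ∧ (∀ i, tr g (S i) = S (i + 1)) ∧
      (∀ i k, i ≠ k → S i ≠ S k ∧ S i ≠ (S k)ᶜ) ∧ ∀ T ∈ Q, ∃ i, T = S i ∨ T = (S i)ᶜ

/-- JOB C4 PIND (hypothesis `S_cyc`). The functions are linearly independent, and a subspace of their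
span stable under `g` contains `eps (S 0) - eps (S 1)` or consists of multiples of the sum.
Proof: write `t i = eps (S i)`. Independence: by `S_cyc` (`T = rtr g`, `t (i + 1) = rtr g (t i)`)
`t 1 = t 0`, impossible, or `∑ t i = 0`, impossible because at each point this is a sum of an odd number
of odd integers. Stable subspace `W`: suppose that `F = ∑ b i • t i ∈ W` is not a multiple of the sum;
work in the quotient of `G → ℚ` by `W` with the images `t' i` of the `t i` and the operator induced by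
`rtr g`: `∑ b i • t' i = 0`, `b ≠ 0`, so `t' 1 = t' 0` (then `t 1 - t 0 ∈ W`, done) or `∑ t' i = 0`; in the
latter case apply the same to `b i - b 0`, which is not zero, in the quotient by `W`, of the family
`t' i`... more directly: `F - rtr g F = ∑ (b i - b (i - 1)) • t i ∈ W`; let `D = b i - b (i - 1)`, not zero,
of sum zero; the polynomial of `D` is not divisible by `Φ_p` (its degree is less than `p` and it would be a
multiple of `Φ_p = ∑ X ^ i`, but its value at one is zero), so its greatest common divisor with `X ^ p - 1`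
is `X - 1`, and `t 1 - t 0 ∈ W`. -/
def S_pind : Prop :=
  ∀ (G : Type) [Group G] [Fintype G] (p : ℕ) [Fact p.Prime], 2 < p → ∀ (g : G) (S : ZMod p → Set G),
    (∀ i, tr g (S i) = S (i + 1)) → (∀ i k, i ≠ k → S i ≠ S k ∧ S i ≠ (S k)ᶜ) →
    LinearIndependent ℚ (fun i => eps (S i)) ∧
    ∀ W : Submodule ℚ (G → ℚ), (∀ F ∈ W, rtr g F ∈ W) →
      (∀ F ∈ W, F ∈ Submodule.span ℚ (Set.range fun i => eps (S i))) →
      eps (S 0) - eps (S 1) ∈ W ∨ ∀ F ∈ W, ∃ r : ℚ, F = r • ∑ i, eps (S i)

/-- JOB C5 PFINE (hypotheses `S_prep`, `S_pind`, `Pool.Agent.Q60.D3G.S_line`). Orbits with `2 p`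
elements, `p ≥ 5` prime. Write `t i = eps (S i)`, `Σ = ∑ t i`; `VV Q` is the span of the `t i`.
Proof of `sum`: let `W` be the space of the `F ∈ VV Q` with `rtr h F = F` for all `h ∈ M`; it is stable
under `G` because `M` is normal, and contains `∑ h : M, rtr h F`. If `t 0 - t 1 ∈ W` then also
`t i - t (i + 1) ∈ W` for all `i`; for `h ∈ M` the functions `rtr h (t i)` are `± t k`, and by linear
independence `rtr h (t i) - rtr h (t (i + 1)) = t i - t (i + 1)` means that `rtr h (t i) = t i`, or
`rtr h (t i) = - t (i + 1)` and `rtr h (t (i + 1)) = - t i`; the latter for `i` contradicts both for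
`i + 1` (`p ≥ 3`); so `h` fixes all `t i`, `M ≤ kerP Q`, a contradiction. So `W` consists of multiples of
`Σ`; if `W = 0` we are done; otherwise `Σ ∈ W`, and `rtr h Σ` is a multiple of `Σ` for all `h ∈ G`, so
`Σ ∈ QQ c` by `S_line` (`Σ` is odd).
Proof of `good`: `FF a = 2 ∑ a (S i) • t i` (`a` is odd, supported on `Q`). Let `W = VV Q ⊓ QQ c`, stable
under `G`. It does not contain `t 0 - t 1`: all `chi N` are fixed by `rtr (h ^ 2)`, so if `t 0 - t 1 ∈ QQ c`
then `rtr (g ^ 2)` fixes it, `t 2 - t 3 = t 0 - t 1`, contradicting independence (`p ≥ 5`). So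
`FF a = r • Σ`, and `a (S i) = r / 2` for all `i` by independence; `r ≠ 0` as `a x ≠ 0`; so `Σ ∈ QQ c`, and
all `rtr h Σ` are multiples of `Σ`, hence `± Σ` (`rtr h` permutes the `± t i`). Replacing all `S i` by their
complements we may assume that `x = S k` for some `k`. Let `N = {h | rtr h Σ = Σ}`; `c ∉ N` as
`rtr c Σ = - Σ ≠ 0`; `Imag c N`; `rtr h` for `h ∈ N` permutes the `t i` (no signs, by independence), so
`a (tr τ S) = a S` for `τ ∈ N` and all `S` (for `S ∉ Q` both are zero), the orbit of `x` under `N` is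
`{S i}` (it contains it as `g ∈ N`) and has `p` elements, `2 p = Q.ncard > 6`; `psum N x = Σ`, which is odd
at `1`, so not zero; `Σ = Σ 1 • chi N` (`eq_smul_eps`), and `FF a = r • Σ = 2 (a x) (Σ 1) • chi N`. If
`h ∈ stb x` then `rtr h Σ = ± Σ` has the coefficient one at `t k`, so `h ∈ N`. -/
def S_pfine : Prop :=
  ∀ (G : Type) [Group G] [Fintype G] (c : G), (∀ g, c * g = g * c) → ∀ Q : Set (Set G), Stable Q →
    Trans Q → (∀ S ∈ Q, Sᶜ ∈ Q) → (∀ S ∈ Q, Half c S) → ∀ p : ℕ, p.Prime → 5 ≤ p →
    Q.ncard = 2 * p → Fine c Q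

/-- JOB C6 AFINE. Orbits of primitive type: the stabilizer of a pair `{S, Sᶜ}` is a maximal subgroup,
and some element fixes all pairs but not all their elements or exchanges not all their elements.
Proof: let `C` be the normal subgroup of the elements which fix all pairs; it acts on each `eps S`,
`S ∈ Q`, by a sign `χ S : C → {1, -1}`. For a normal subgroup `C' ≤ C` of `G` consider the relation
`χ S = χ T` on `C'`: for fixed `S` the elements `g` with `χ (tr g S) = χ S` on `C'` form a subgroup `H`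
containing the stabilizer of the pair of `S` (`C'` is normal: `χ (tr g S) (h) = χ S (g⁻¹ h g)` or so), so
`H` is the stabilizer or `⊤`. If `H = ⊤` then `χ S` is the same for all `S ∈ Q`, and each `h ∈ C'` acts on all
of `Q` by the same sign. (1) For `C' = C` this is excluded, so `χ S ≠ χ T` whenever `T ≠ S`, `T ≠ Sᶜ`: by the
linear independence of characters the functions `eps S`, one for each pair, are linearly
independent. (2) `sum`: let `M` be normal, not contained in `kerP Q`, and `C' = M ⊓ C`. If `C' ≤ kerP Q`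
then commutators of `h ∈ M` and `k ∈ C` act trivially, so `χ (tr h S) = χ S` on `C` and `h` fixes all pairs,
`h ∈ C'`, a contradiction. So some `h ∈ C'` acts nontrivially; in both cases (`H = ⊤`, or the characters
`χ S` on `C'` are different for different pairs) no `χ S` is trivial on `C'`, (if `χ S` is trivial so are all
its conjugates `χ (tr g S)`, which are all of them), so for each `S ∈ Q` there is `h ∈ M` with
`rtr h (eps S) = - eps S`, and `∑ h : M, rtr h (eps S) = 0`. (3) `good`: let `C'` be the subgroup generated by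
the commutators of elements of `G` and of `C`, a normal subgroup; it is not contained in `kerP Q` (otherwise
`χ (tr g S) = χ S` for all `g`, excluded), so as in (2) no `χ S` is trivial on `C'`; commutators act trivially
on `QQ c`, so `F = ∑ b i • eps (S i) ∈ QQ c` (one `S i` for each pair) is fixed by `C'`, so
`b i (χ (S i) h - 1) = 0` for all `h ∈ C'` by independence, and `b i = 0`. So `a = 0`, contradicting
`a x ≠ 0`. -/
def S_afine : Prop :=
  ∀ (G : Type) [Group G] [Fintype G] (c : G), (∀ g, c * g = g * c) → ∀ Q : Set (Set G), Stable Q →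
    Trans Q → (∀ S ∈ Q, Sᶜ ∈ Q) → (∀ S ∈ Q, Half c S) →
    (∀ S ∈ Q, ∀ H : Subgroup G, (∀ τ, tr τ S = S ∨ tr τ S = Sᶜ → τ ∈ H) →
      (∀ τ ∈ H, tr τ S = S ∨ tr τ S = Sᶜ) ∨ H = ⊤) →
    (∃ h, (∀ S ∈ Q, tr h S = S ∨ tr h S = Sᶜ) ∧ (∃ S ∈ Q, tr h S = S) ∧ ∃ S ∈ Q, tr h S = Sᶜ) →
    Fine c Q

/-- The conditions on the kernels: two orbits with the same kernel are equal if one has more than six
elements (and the other one more than two), and two of three orbits with the same kernel and three to
six elements are equal. -/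
structure Kers {G : Type} [Group G] (O : Finset (Set (Set G))) : Prop where
  two : ∀ Q ∈ O, ∀ Q' ∈ O, 6 < Q.ncard → 2 < Q'.ncard → kerP Q = kerP Q' → Q = Q'
  three : ∀ Q ∈ O, ∀ Q' ∈ O, ∀ Q'' ∈ O, 2 < Q.ncard → 2 < Q'.ncard → 2 < Q''.ncard →
    kerP Q = kerP Q' → kerP Q' = kerP Q'' → Q = Q' ∨ Q' = Q'' ∨ Q = Q''

/-- JOB C7 FPART (hypotheses `S_sep`, `S_pair` of project D3G, both proved). The parts of a relation.
Proof: copy of `part` in `Pool/Agent/Q146/D3G/Part.lean` (job G7 of D3G). `VV_le_QQ` for orbits with at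
most two elements; `Fine.sum` replaces `sum_mem_QQ`; if `T` has a second element `K'` then by `Kers.two`
both have at most six elements (otherwise `K = K'`), so they are orbits in the sense of `IsOrbit` and
`S_pair` applies. -/
def S_fpart : Prop :=
  ∀ (G : Type) [Group G] [Fintype G] (c : G), (∀ g, c * g = g * c) → ∀ O : Finset (Set (Set G)),
    (∀ Q ∈ O, Fine c Q) → (∀ Q ∈ O, ∀ Q' ∈ O, Q ≠ Q' → Disjoint Q Q') → Kers O →
    ∀ (P : Set (Set G)), (∀ S, S ∈ P ↔ ∃ Q ∈ O, S ∈ Q) → ∀ a : Set G → ℚ, IsRel P a →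
      ∀ Q ∈ O, FF (aQ a Q) ∈ QQ c

/-- JOB C8 MANY (hypothesis `S_fpart`). The block of a relation.
Proof (compare `two` in `Pool/Agent/Q211/D3G/TWO.lean`, `exists_two` in
`Pool/Agent/W547/LN/Family.lean`): `a ≠ 0` gives an orbit `Q0 ∈ O` with a positive value, `x0 ∈ Q0`,
`0 < a x0`, and `N` with `GoodF c Q0 (aQ a Q0) x0 N` (`Fine.good`, `S_fpart`). For `Q ∈ O` let
`t Q = dot (FF (aQ a Q)) (chi N)`; `∑ Q ∈ O, t Q = 0` by `sum_FF`. If `t Q ≠ 0` then `a` is not zero on
`Q`, there is `x ∈ Q` with `0 < a x`, and `GoodF c Q (aQ a Q) x N'` with `N' = N` (otherwise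
`t Q = 0` by `dot_chi`), and `t Q = 2 (a x) (psum N x 1) |G|`. `Y` is the set of one such `x` for each
`Q ∈ O` with `t Q ≠ 0` (so `x0` may be taken for `Q0`); different elements of `Y` lie in different, hence
disjoint, stable orbits. -/
def S_many : Prop :=
  ∀ (G : Type) [Group G] [Fintype G] (c : G), (∀ g, c * g = g * c) → ∀ O : Finset (Set (Set G)),
    (∀ Q ∈ O, Fine c Q) → (∀ Q ∈ O, ∀ Q' ∈ O, Q ≠ Q' → Disjoint Q Q') → Kers O →
    ∀ (P : Set (Set G)), (∀ S, S ∈ P ↔ ∃ Q ∈ O, S ∈ Q) → ∀ a : Set G → ℚ, IsRel P a → a ≠ 0 →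
    ∃ (N : Subgroup G) (Y : Finset (Set G)), Y.Nonempty ∧ Imag c N ∧
      (∀ x ∈ Y, 0 < a x ∧ Half c x ∧ stb x ≤ N ∧ (∀ τ ∈ N, a (tr τ x) = a x) ∧
        ∃ Q ∈ O, x ∈ Q ∧ by classical exact (psum N x 1 ≠ 0 ∧ (Nat.card (OrbT N x) = 1 ∨
          (Nat.card (OrbT N x) = 3 ∧ |psum N x 1| = 1) ∨
          (6 < Q.ncard ∧ 2 * Nat.card (OrbT N x) = Q.ncard)))) ∧
      (∀ x ∈ Y, ∀ y ∈ Y, x ≠ y → ∀ (S : OrbT N x) (T : OrbT N y), S.1 ≠ T.1) ∧
      by classical exact (∑ x ∈ Y, a x * psum N x 1 = 0)

end Pool.Agent.Q60.D3H
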