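import Mathlib
import Pool.Agent.Q60.D3G.StmA
import Pool.Agent.Q60.D3E.Defs
import Pool.Agent.Q60.D3H.StmC
import Pool.Agent.W547.LN.Main

/-!
# Project D3H: lemma jobs on abelian varieties

`L` is a Galois CM field, `j : L →+* ℂ`, `N` a subgroup of index two of the Galois group which does not
contain the complex conjugation (`IsImag N`). `hs B j φ` is the half system of an embedding
`φ : B.E →+* L` (`Pool/Agent/W547/LD/Final.lean`); all embeddings of `B.E` are conjugate
(`exists_smul`), `tr g (hs B j φ) = hs B j (g • φ)` (`tr_hs`).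
-/

namespace Pool.Agent.Q60.D3H

open NumberField Module Pool.Agent.H204R3.CM
open Pool.Agent.W547.KB (CMPair CMAV cc IsHalf Wt St mono trForm single Balanced)
open Pool.Agent.W547.LD (IsImag fld stab emb pairOf prodOf Orb orbWt hs)
open Pool.Agent.W547.LD.Comb (OrbT psum tr)
open Pool.Agent.Q60.D3 (AV IsHom IsSimple IsCM IsIsogenousToProd)
open Pool.Agent.Q60.D3E (IsoCM HasCMType)
open Pool.Agent.Q60.D3G (av)
open Pool.Agent.Q180.WT (Gen GC KO)
open Pool.Agent.Q180.UW (mult IsUnitary)

/-- The abelian variety `A` has multiplication by an imaginary quadratic field `ℚ (√-d)` (the square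
root acts as `φ` on the homology and as `C` on the tangent space), and the larger one of the
multiplicities of the two embeddings of this field on the tangent space is `M`. -/
def KMult (A : AV) (M : ℕ) : Prop :=
  ∃ (d : ℕ) (μ : ℂ) (φ : A.H →ₗ[ℚ] A.H) (C : A.T →ₗ[ℂ] A.T), 0 < d ∧ μ * μ = -(d : ℂ) ∧
    (∀ w, C (A.per w) = A.per (φ w)) ∧ (∀ w, φ (φ w) = -((d : ℚ) • w)) ∧
    M = max (mult C μ) (mult C (-μ))

/-- The field of `B` contains `δ = √-d`, and `M` is the larger one of the numbers of elements of the CM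
type of `B` with the value `μ` and `-μ` at `δ`. -/
def SigB (B : CMPair) (M : ℕ) : Prop :=
  ∃ (d : ℕ) (δ : B.E) (μ : ℂ), 0 < d ∧ δ * δ = -(d : B.E) ∧ μ * μ = -(d : ℂ) ∧
    M = max (Nat.card {φ : B.Φ // φ.1 δ = μ}) (Nat.card {φ : B.Φ // φ.1 δ = -μ})

/-- The maximal real subfield of the field of `B` has no subfields except itself and `ℚ`, and the Galois
closure of the field of `B` has degree larger than two over the Galois closure of this real subfield
(in particular the field of `B` contains no imaginary quadratic field). -/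
def PrimT (B : CMPair) : Prop :=
  (∀ F : Subfield B.E, F ≤ maximalRealSubfield B.E → F = ⊥ ∨ F = maximalRealSubfield B.E) ∧
  2 * finrank ℚ (IntermediateField.normalClosure ℚ (maximalRealSubfield B.E) ℂ) <
    finrank ℚ (IntermediateField.normalClosure ℚ B.E ℂ)

/-- JOB A1 KMS.
Proof: `A.H` is identified with `B.E` by `e`, `A.T` with `B.Φ → ℂ`; let `φ` be the multiplication by
`δ`, and `C` the diagonal operator with the entries `ψ.1 δ`, `ψ ∈ B.Φ` (transported by `e` and the
given isomorphism of the tangent spaces). The kernel of `C - μ` consists of the functions supported on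
`{ψ | ψ.1 δ = μ}`, of dimension the cardinality of this set. -/
def S_kms : Prop := ∀ (A : AV) (B : CMPair), HasCMType A B → ∀ M, SigB B M → KMult A M

/-- JOB A2 UMU. Unitary type with respect to a quadratic field.
Proof: `IsUnitary A 2 M'` gives an irreducible polynomial `P = a x² + b x + c` without real roots,
`φ`, `C` and `n`, with the multiplicities `mult C μ`, `mult C μ̄` at least one, coprime. Multiplying `P` by
a common denominator, `a`, `b`, `c` are integers; `φ' = 2 a φ + b`, `C' = 2 a C + b` satisfy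
`φ' ^ 2 = b² - 4 a c = -d` with `d > 0`, and `ker (C' - (2 a μ + b)) = ker (C - μ)`. The two roots are
`μ` and `μ̄`, and `2 a μ̄ + b = - (2 a μ + b)`. So for `M` the maximum of the two multiplicities
`KMult A M`, and `IsUnitary A 2 M` with the data `P`, `φ`, `C`, `n`. Compare
`Pool/Agent/Q58/D3G/W2W.lean`. -/
def S_umu : Prop :=
  ∀ (A : AV) (M' : ℕ), IsUnitary A 2 M' → ∃ M, KMult A M ∧ IsUnitary A 2 M

/-- JOB A3 COREF (hypotheses: lemmas of project D3G, all proved: `Pool.Agent.Q274.D3G.Root.root`,
`Pool.Agent.Q58.D3G.Lap.lap`, `Pool.Agent.Q58.D3G.Trc.trc`, `Pool.Agent.Q174.D3G.Cko.cko`). As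
`Pool.Agent.Q274.D3G.core` (`Pool/Agent/Q274/D3G/Core.lean`) with an arbitrary finite index set in the
place of `Bool`: the same proof. `m = Fintype.card Q`, `Fintype.equivFin Q` replaces `finTwoEquiv`; the
multilinear form is the product over `Q` of the determinants (a product over a finite type of the values of
multilinear maps in disjoint groups of variables is multilinear; write it with
`MultilinearMap.mk'` or reduce it to `mkPiAlgebra` and the expansion of the determinants); `hD` is
the hypothesis on the orbits (`(K q).s` is an integer with the value `psum N (x q) 1`). The monomial is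
balanced because of `Balanced` at `1`: `∑ q, psum N (x q) 1 = 0` (`balanced_iff`,
`Fintype.sum_sigma`). -/
def S_coreF : Prop :=
  ∀ (𝒟 : Set ℕ) (L : Type) [Field L] [NumberField L] [IsCMField L] [IsGalois ℚ L]
    (j : L →+* ℂ) (N : Subgroup (L ≃ₐ[ℚ] L)) (Q : Type) [Fintype Q] (x : Q → Set (L ≃ₐ[ℚ] L))
    (hx : ∀ q, IsHalf (x q)) [DecidableEq (Orb N x)] [Fintype (Orb N x)], IsImag N →
    (∀ q, stab (x q) ≤ N) →
    (∀ q, Nat.card (OrbT N (x q)) = 1 ∨ by classical exact (psum N (x q) 1 ≠ 0 ∧
      ∃ r ∈ 𝒟, (Nat.card (OrbT N (x q)) : ℚ) + |psum N (x q) 1| = 2 * (r : ℚ))) →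
    Balanced (fun k : Orb N x => k.2.1) → ∀ α : L,
    Gen 𝒟 (av (prodOf j x hx)) (Orb N x) (trForm α (orbWt j N x hx))

/-- JOB A4 SIG. The signature of the imaginary quadratic field belonging to `N`.
Proof: by `Pool.Agent.W547.LD.exists_sqrt` (or `S_root` of D3G) there is `δ₀ ∈ L`, `δ₀² = -d`, `d > 0`,
fixed by `N`; `N` is exactly the stabilizer of `δ₀` (the complex conjugation maps it to `-δ₀` and
`N` has index two). By the injectivity an automorphism `τ` with `τ • φ = φ` iff `tr τ x = x`, so the
automorphisms which fix all `φ a` are in `N`, and fix `δ₀`; hence `δ₀ = φ δ` with `δ ∈ B.E` (the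
fixed field of the fixing subgroup of the range of `φ` is the range: `IsGalois`). The
elements of the orbit `OrbT N x` are the `tr τ x = hs B j (τ • φ)`, `τ ∈ N`, and correspond (injectivity)
to the embeddings `ψ : B.E →+* L` with `ψ δ = δ₀` (if `ψ = g • φ` and `ψ δ = δ₀` then `g δ₀ = δ₀` and
`g ∈ N`). Let `μ = j δ₀`. The element belonging to `ψ` contains `1` iff `j ∘ ψ ∈ B.Φ`; so with
`a = #{ρ ∈ Φ | ρ δ = μ}`, `b = #{ρ ∉ Φ | ρ δ = μ}` the orbit has `a + b` elements and
`psum N x 1 = a - b` (all complex embeddings `ρ` are `j ∘ ψ` by `hj`). The complex conjugation gives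
`b = #{ρ ∈ Φ | ρ δ = -μ}` (`B.isCMType`). So `M = max a b` satisfies `2 M = a + b + |a - b|`. -/
def S_sig : Prop :=
  ∀ (B : CMPair) (L : Type) [Field L] [NumberField L] [IsCMField L] [IsGalois ℚ L]
    (j : L →+* ℂ), (∀ ψ : B.E →+* ℂ, ∃ φ : B.E →+* L, j.comp φ = ψ) →
    Function.Injective (hs B j) → ∀ N : Subgroup (L ≃ₐ[ℚ] L), IsImag N → ∀ φ : B.E →+* L,
    stab (hs B j φ) ≤ N →
    ∃ M, SigB B M ∧ by classical exact
      ((Nat.card (OrbT N (hs B j φ)) : ℚ) + |psum N (hs B j φ) 1| = 2 * (M : ℚ))

/-- JOB A5 DIV. The number of different half systems of `B`.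
Proof: the fibres of `hs B j` have the same cardinality because the group permutes the embeddings
transitively (`exists_smul`, `tr_hs`, `card_hom`, see `hs_injective` in
`Pool/Agent/W547/LN/Closure.lean`); even by `Comb.even_ncard (compl_hs B j)`; a surjective map between
finite sets of the same cardinality is injective. -/
def S_div : Prop :=
  ∀ (B : CMPair) (L : Type) [Field L] [NumberField L] [IsCMField L] [IsGalois ℚ L]
    (j : L →+* ℂ), (∀ ψ : B.E →+* ℂ, ∃ φ : B.E →+* L, j.comp φ = ψ) →
    (Set.range (hs B j)).ncard ∣ finrank ℚ B.E ∧ Even (Set.range (hs B j)).ncard ∧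
    ((Set.range (hs B j)).ncard = finrank ℚ B.E → Function.Injective (hs B j))

/-- JOB A6 PRT. The orbit of a CM type of primitive type.
Proof. Let `F = maximalRealSubfield B.E`, an element `a` is in `F` iff all its images in `ℂ` are real,
`[B.E : F] = 2`; two embeddings `φ, ψ` of `B.E` in `L` which agree on `F` are equal or complex conjugate.
(1) Let `S = hs B j φ` and let `H` be a subgroup containing all `τ` with `tr τ S = S` or `tr τ S = Sᶜ`. It
contains the fixing subgroup `U` of `φ (F)` (`τ ∈ U` satisfies `τ • φ = φ` or its conjugate, so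
`tr τ S = S` or `Sᶜ`, `compl_hs`). The fixed field of `H` is contained in `φ (F)`; its inverse image
under `φ` is a subfield of `F`, hence `⊥` or `F`; so the fixed field of `H` is `⊥` and `H = ⊤`, or
it is `φ (F)` and `H = U`, and all elements of `U` satisfy the claim.
(2) The normal closure of `B.E` in `L` has degree larger than two over the normal closure `F'` of
`F` in `L` (`j` identifies the normal closures in `L` with those in `ℂ`; see `normalClosure_le` in
`Pool/Agent/W547/LN/Closure.lean`). So there is `τ ∈ Gal (L / F')` which is neither the identity nor the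
complex conjugation on the normal closure of `B.E`. All `τ • φ` are `φ` or its conjugate; not always
`φ`, not always the conjugate.
(3) Injectivity: let `S = hs B j φ`, and suppose `hs B j (g • φ) = S`, i.e. `tr g S = S`, for some `g`. Let `T'`
be the subgroup of the `τ` with `tr τ S = S` or `tr τ S = Sᶜ`; by the proof of (1) `T' = U` or `T' = ⊤`.
If `T' = ⊤` then all elements of the orbit are `S` or `Sᶜ` and all `τ` fix both or exchange them,
which contradicts (2). So `g ∈ U`, `g • φ = φ`, or `g • φ` is the conjugate of `φ`; in the latter case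
`tr g S = Sᶜ ≠ S`, a contradiction. -/
def S_prt : Prop :=
  ∀ (B : CMPair), PrimT B → ∀ (L : Type) [Field L] [NumberField L] [IsCMField L] [IsGalois ℚ L]
    (j : L →+* ℂ), (∀ ψ : B.E →+* ℂ, ∃ φ : B.E →+* L, j.comp φ = ψ) →
    (∀ S ∈ Set.range (hs B j), ∀ H : Subgroup (L ≃ₐ[ℚ] L),
      (∀ τ, tr τ S = S ∨ tr τ S = Sᶜ → τ ∈ H) → (∀ τ ∈ H, tr τ S = S ∨ tr τ S = Sᶜ) ∨ H = ⊤) ∧
    (∃ h, (∀ S ∈ Set.range (hs B j), tr h S = S ∨ tr h S = Sᶜ) ∧
      (∃ S ∈ Set.range (hs B j), tr h S = S) ∧ ∃ S ∈ Set.range (hs B j), tr h S = Sᶜ) ∧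
    Function.Injective (hs B j)

end Pool.Agent.Q60.D3H
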