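import Mathlib
import Pool.Agent.Q60.D3G.RFam
import Pool.Agent.Q60.D3H.StmA

/-!
# Decomposition of balanced families of half systems in several orbits, general orbits
-/

set_option linter.unusedSectionVars false
set_option linter.unusedVariables false

namespace Pool.Agent.Q60.D3H

open NumberField Pool.Agent.H204R3.CM Equiv Module
open Pool.Agent.W547.KB hiding Gen IsHom
open Pool.Agent.W547.LD hiding tr stab
open Pool.Agent.W547.LN (SameType hs_injective normalClosure_le range_eq_of_galois range_eq_of_sameType)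
open Pool.Agent.Q60.D3G

noncomputable section

variable {𝒟 : Set ℕ} {L : Type} [Field L] [NumberField L] [IsCMField L] [IsGalois ℚ L]

/-- The condition on an orbit of order `n` and weight `s`. -/
def GoodW (𝒟 : Set ℕ) (N : Subgroup (L ≃ₐ[ℚ] L)) (x : Set (L ≃ₐ[ℚ] L)) : Prop :=
  Nat.card (Comb.OrbT N x) = 1 ∨ by classical exact (Comb.psum N x 1 ≠ 0 ∧
    ∃ r ∈ 𝒟, (Nat.card (Comb.OrbT N x) : ℚ) + |Comb.psum N x 1| = 2 * (r : ℚ))

/-- The monomials belonging to a balanced union of orbits. -/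
theorem algR_orbF (hcore : S_coreF) (j : L →+* ℂ) (N : Subgroup (L ≃ₐ[ℚ] L)) {Q : Type} [Fintype Q]
    (x : Q → Set (L ≃ₐ[ℚ] L)) (hx : ∀ q, IsHalf (x q)) [DecidableEq (Orb N x)]
    [Fintype (Orb N x)] (hN : IsImag N) (hst : ∀ q, Pool.Agent.W547.LD.stab (x q) ≤ N)
    (hn : ∀ q, GoodW 𝒟 N (x q))
    (hbal : Balanced (fun k : Orb N x => k.2.1)) (X : CMAV) :
    AlgR 𝒟 X j (fun k : Orb N x => k.2.1) := by
  intro I hI
  refine mono_mem_of_pull j I (fun k => orbWt j N x hx k) (orbWt_injective j N x hx)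
    (fun k => by rw [hI, St_orbWt]) _ ?_
  intro g hg
  obtain ⟨m, a, b, hab⟩ := exists_dual L
  have h3 : (fun v : Orb N x → X.H1 => mono (fun k => orbWt j N x hx k)
      (fun a => g (v a))) = ∑ i, b i • (fun v : Orb N x → X.H1 =>
        ((((trForm (a i) (fun k => orbWt j N x hx k)).compLinearMap g) v : ℚ) : L)) := by
    funext v
    rw [Finset.sum_apply]
    exact hab _
  rw [h3]
  refine Submodule.sum_mem _ fun i _ => Submodule.smul_mem _ _ (LR.of_ring ?_)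
  exact R.pull g hg _ (hcore 𝒟 L j N Q x hx hN hst hn hbal (a i))

open Classical in
theorem block_family (hmany : S_many) (hcore : S_coreF) (hD : 2 ∈ 𝒟) (j : L →+* ℂ)
    (O : Finset (Set (Set (L ≃ₐ[ℚ] L)))) (hO : ∀ Q ∈ O, Fine (cc L) Q)
    (hdisj : ∀ Q ∈ O, ∀ Q' ∈ O, Q ≠ Q' → Disjoint Q Q') (hker : Kers O)
    (hw : ∀ Q ∈ O, 6 < Q.ncard → ∀ x ∈ Q, ∀ N : Subgroup (L ≃ₐ[ℚ] L), IsImag N →
      Pool.Agent.W547.LD.stab x ≤ N →
      ∃ r ∈ 𝒟, (Nat.card (Comb.OrbT N x) : ℚ) + |Comb.psum N x 1| = 2 * (r : ℚ))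
    (X : CMAV) (κ : Type) [Fintype κ] [DecidableEq κ] [Nonempty κ] (s : κ → Set (L ≃ₐ[ℚ] L))
    (hs : ∀ k, ∃ Q ∈ O, s k ∈ Q) (hbal : Balanced s) (hpair : ∀ k l, s l ≠ (s k)ᶜ) :
      ∃ (κ' : Type) (_ : Fintype κ') (_ : DecidableEq κ') (t : κ' → Set (L ≃ₐ[ℚ] L)),
        Nonempty κ' ∧ Balanced t ∧ AlgR 𝒟 X j t ∧ ∀ k', cnt t (t k') ≤ cnt s (t k') := by
  obtain ⟨k0⟩ : Nonempty κ := inferInstance
  let P : Set (Set (L ≃ₐ[ℚ] L)) := {S | ∃ Q ∈ O, S ∈ Q}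
  have hcompl : ∀ S ∈ P, Sᶜ ∈ P := by
    rintro S ⟨Q, hQ, hS⟩
    exact ⟨Q, hQ, (hO Q hQ).compl S hS⟩
  have ha := isRel_cnt hcompl s hs hbal
  set a : Set (L ≃ₐ[ℚ] L) → ℚ := fun S => cnt s S - cnt s Sᶜ with hadef
  let n : Set (L ≃ₐ[ℚ] L) → ℕ := fun S => Nat.card {k // s k = S}
  have hn : ∀ S, 0 < a S → a S = n S := by
    intro S hS
    have h1 := cnt_nonneg s Sᶜ
    have h2 : 0 < cnt s S := by
      change 0 < cnt s S - cnt s Sᶜ at hS
      linarith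
    obtain ⟨k, hk⟩ := (cnt_pos_iff s S).1 h2
    have h3 : cnt s Sᶜ = 0 := by
      refine cnt_eq_zero s _ fun l hl => hpair k l ?_
      rw [hk, hl]
    change cnt s S - cnt s Sᶜ = _
    rw [h3, sub_zero, cnt_eq]
  have hle : ∀ S, a S ≤ cnt s S := by
    intro S
    have h1 := cnt_nonneg s Sᶜ
    change cnt s S - cnt s Sᶜ ≤ _
    linarith
  have ha0 : a ≠ 0 := by
    intro h
    have h1 : a (s k0) = cnt s (s k0) := by
      change cnt s (s k0) - cnt s (s k0)ᶜ = _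
      rw [cnt_eq_zero s _ (hpair k0), sub_zero]
    rw [h] at h1
    have h2 : 0 < cnt s (s k0) := (cnt_pos_iff s _).2 ⟨k0, rfl⟩
    rw [← h1] at h2
    exact lt_irrefl _ h2
  have hc : ∀ g, cc L * g = g * cc L := fun g => cc_comm j g
  obtain ⟨N, Y, ⟨y0, hy0⟩, hN, hY, hdist, hsum⟩ :=
    hmany (L ≃ₐ[ℚ] L) (cc L) hc O hO hdisj hker P (fun S => Iff.rfl) a ha ha0
  let Q' : Type := Σ x : Y, Fin (n x.1)
  let x' : Q' → Set (L ≃ₐ[ℚ] L) := fun q => q.1.1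
  have hbt : Balanced (fun k : Orb N x' => k.2.1) := by
    rw [balanced_iff]
    intro σ
    have key : ∀ σ ∈ N, ∑ k : Orb N x', Comb.eps k.2.1 σ = 0 := by
      intro σ hσ
      rw [Fintype.sum_sigma]
      have h1 : ∀ q : Q', ∑ S : {S : Set (L ≃ₐ[ℚ] L) // ∃ τ ∈ N, Pool.Agent.W547.LD.tr τ (x' q) = S},
          Comb.eps S.1 σ = Comb.psum N q.1.1 1 := by
        intro q
        exact Comb.psum_mem (x := q.1.1) hσ
      rw [Finset.sum_congr rfl fun q _ => h1 q, Fintype.sum_sigma]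
      rw [← Finset.sum_coe_sort] at hsum
      refine Eq.trans (Finset.sum_congr rfl fun x _ => ?_) hsum
      change ∑ _ : Fin (n x.1), Comb.psum N x.1 1 = _
      rw [Finset.sum_const, Finset.card_univ, Fintype.card_fin, nsmul_eq_mul,
        hn x.1 (hY x.1 x.2).1]
    by_cases h : σ ∈ N
    · exact key σ h
    · have h1 := key _ (hN.2 σ h)
      have h2 : ∀ k : Orb N x', Comb.eps k.2.1 (cc L * σ) = -Comb.eps k.2.1 σ := by
        intro k
        have h3 : Comb.Half (cc L) (x' k.1) := (hY _ k.1.1.2).2.1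
        have h4 := Comb.half_of_orb (N := N) h3 ⟨k.2.1, k.2.2⟩ σ
        change (σ ∈ k.2.1 ↔ cc L * σ ∉ k.2.1) at h4
        unfold Comb.eps
        by_cases h : σ ∈ k.2.1
        · rw [if_pos h, if_neg (h4.1 h)]
        · rw [if_neg h, if_pos (by tauto), neg_neg]
      rw [Finset.sum_congr rfl fun k _ => h2 k, Finset.sum_neg_distrib, neg_eq_zero] at h1
      exact h1
  have hAt : AlgR 𝒟 X j (fun k : Orb N x' => k.2.1) := by
    refine algR_orbF hcore j N x' (fun q => (hY _ q.1.2).2.1) hN (fun q => (hY _ q.1.2).2.2.1)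
      (fun q => ?_) hbt X
    obtain ⟨-, -, hst, -, Q, hQ, hxQ, hne, h1⟩ := hY _ q.1.2
    rcases h1 with h1 | ⟨h1, h2⟩ | ⟨h1, -⟩
    · exact Or.inl h1
    · refine Or.inr ⟨hne, 2, hD, ?_⟩
      change (Nat.card (Comb.OrbT N q.1.1) : ℚ) + |Comb.psum N q.1.1 1| = _
      rw [h1, h2]
      norm_num
    · exact Or.inr ⟨hne, hw Q hQ h1 _ hxQ N hN hst⟩
  have hpos : 0 < n y0 := by
    have h1 := (hY y0 hy0).1
    rw [hn y0 h1] at h1
    exact_mod_cast h1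
  refine ⟨Orb N x', inferInstance, inferInstance, fun k => k.2.1,
    ⟨⟨⟨⟨y0, hy0⟩, ⟨0, hpos⟩⟩, ⟨y0, Comb.self_mem N y0⟩⟩⟩, hbt, hAt, fun k' => ?_⟩
  obtain ⟨⟨⟨z, hz⟩, i⟩, S, τ, hτ, hS⟩ := k'
  have hS' : Comb.tr τ z = S := hS
  change cnt (fun k : Orb N x' => k.2.1) S ≤ cnt s S
  have h1 : cnt (fun k : Orb N x' => k.2.1) S ≤ n z := by
    rw [cnt_eq]
    have h3 : Nat.card {k : Orb N x' // k.2.1 = S} ≤ Nat.card (Fin (n z)) := by
      have hq : ∀ k : {k : Orb N x' // k.2.1 = S}, k.1.1.1.1 = z := by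
        rintro ⟨⟨⟨⟨w, hw'⟩, l⟩, T⟩, hT⟩
        by_contra hne
        exact hdist w hw' z hz hne T ⟨S, τ, hτ, hS'⟩ hT
      refine Nat.card_le_card_of_injective
        (fun k => (⟨k.1.1.2.1, by rw [← hq k]; exact k.1.1.2.2⟩ : Fin (n z))) ?_
      rintro ⟨⟨⟨⟨w, hw'⟩, l⟩, T⟩, hT⟩ ⟨⟨⟨⟨w2, hw2⟩, l2⟩, T2⟩, hT2⟩ h
      have e1 : w = z := hq ⟨⟨⟨⟨w, hw'⟩, l⟩, T⟩, hT⟩
      have e2 : w2 = z := hq ⟨⟨⟨⟨w2, hw2⟩, l2⟩, T2⟩, hT2⟩
      subst e1
      subst e2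
      have e3 : l = l2 := Fin.ext (Fin.mk.inj_iff.1 h)
      subst e3
      have e4 : T = T2 := Subtype.ext (hT.trans hT2.symm)
      subst e4
      rfl
    rw [Nat.card_fin] at h3
    exact_mod_cast h3
  have h2 := (hY z hz).1
  have h3 := (hY z hz).2.2.2.1 τ hτ
  have h4 : a S = a z := by
    rw [← hS']
    exact h3
  calc cnt (fun k : Orb N x' => k.2.1) S ≤ n z := h1
    _ = a z := (hn z h2).symm
    _ = a S := h4.symm
    _ ≤ cnt s S := hle S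

/-- All balanced families are decomposed. -/
theorem algR_family (hmany : S_many) (hcore : S_coreF) (hD : 2 ∈ 𝒟) (j : L →+* ℂ)
    (O : Finset (Set (Set (L ≃ₐ[ℚ] L)))) (hO : ∀ Q ∈ O, Fine (cc L) Q)
    (hdisj : ∀ Q ∈ O, ∀ Q' ∈ O, Q ≠ Q' → Disjoint Q Q') (hker : Kers O)
    (hw : ∀ Q ∈ O, 6 < Q.ncard → ∀ x ∈ Q, ∀ N : Subgroup (L ≃ₐ[ℚ] L), IsImag N →
      Pool.Agent.W547.LD.stab x ≤ N →
      by classical exact
        (∃ r ∈ 𝒟, (Nat.card (Comb.OrbT N x) : ℚ) + |Comb.psum N x 1| = 2 * (r : ℚ)))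
    (X : CMAV) {κ : Type} [Fintype κ] [DecidableEq κ] (s : κ → Set (L ≃ₐ[ℚ] L))
    (hs : ∀ k, ∃ Q ∈ O, s k ∈ Q) (hbal : Balanced s) : AlgR 𝒟 X j s :=
  algR_of_blocks j X (fun S => ∃ Q ∈ O, S ∈ Q)
    (fun κ _ _ _ s hs hbal hpair => block_family hmany hcore hD j O hO hdisj hker hw X κ s hs
      hbal hpair)
    _ κ rfl s hs hbal

end

end Pool.Agent.Q60.D3H
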