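import Mathlib
import Pool.Agent.Q60.D3H.Fam

/-!
# Hodge classes on products of abelian varieties of CM types of prime dimension or of primitive type
-/

set_option linter.unusedSectionVars false
set_option linter.unusedVariables false

namespace Pool.Agent.Q60.D3H

open NumberField Pool.Agent.H204R3.CM Equiv Module
open Pool.Agent.W547.KB hiding Gen IsHom
open Pool.Agent.W547.LD hiding tr stab
open Pool.Agent.W547.LN (SameType hs_injective normalClosure_le range_eq_of_galois range_eq_of_sameType)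
open Pool.Agent.Q60.D3G

noncomputable section

variable {𝒟 : Set ℕ}

/-- The admitted CM types: degree at most six, twice a prime number, or primitive type. -/
def Adm (B : CMPair) : Prop :=
  finrank ℚ B.E ≤ 6 ∨ (∃ p : ℕ, p.Prime ∧ 5 ≤ p ∧ finrank ℚ B.E = 2 * p) ∨ PrimT B

/-- The conditions on the factors of `X`. -/
structure PrimeT (𝒟 : Set ℕ) (X : CMAV) : Prop where
  adm : ∀ i, Adm (X.factor i)
  sig : ∀ i, 6 < finrank ℚ (X.factor i).E → ¬ PrimT (X.factor i) →
    ∀ M, SigB (X.factor i) M → M ∈ 𝒟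
  two : ∀ i k, 6 < finrank ℚ (X.factor i).E →
    IntermediateField.normalClosure ℚ (X.factor i).E ℂ =
      IntermediateField.normalClosure ℚ (X.factor k).E ℂ → SameType (X.factor i) (X.factor k)
  three : ∀ i k l, finrank ℚ (X.factor i).E ≠ 2 → finrank ℚ (X.factor k).E ≠ 2 →
    finrank ℚ (X.factor l).E ≠ 2 → finrank ℚ (X.factor i).E ≤ 6 → finrank ℚ (X.factor k).E ≤ 6 →
    finrank ℚ (X.factor l).E ≤ 6 → IntermediateField.normalClosure ℚ (X.factor i).E ℂ =
      IntermediateField.normalClosure ℚ (X.factor k).E ℂ →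
    IntermediateField.normalClosure ℚ (X.factor k).E ℂ =
      IntermediateField.normalClosure ℚ (X.factor l).E ℂ →
    IsGalois ℚ (X.factor i).E ∨ SameType (X.factor i) (X.factor k) ∨
      SameType (X.factor k) (X.factor l) ∨ SameType (X.factor i) (X.factor l)

variable {L : Type} [Field L] [NumberField L] [IsCMField L] [IsGalois ℚ L]

/-- The number of half systems. -/
theorem ncard_cases (hdiv : S_div) {B : CMPair} (j : L →+* ℂ)
    (hj : ∀ ψ : B.E →+* ℂ, ∃ φ : B.E →+* L, j.comp φ = ψ) {p : ℕ} (hp : p.Prime)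
    (h : finrank ℚ B.E = 2 * p) :
    (Set.range (hs B j)).ncard = 2 ∨ (Set.range (hs B j)).ncard = 2 * p := by
  obtain ⟨h1, ⟨k, hk⟩, -⟩ := hdiv B L j hj
  rw [hk, h] at h1
  have h2 : k + k = 2 * k := by ring
  rw [h2] at h1 hk
  have h3 : k ∣ p := Nat.dvd_of_mul_dvd_mul_left (by norm_num) h1
  rcases (Nat.dvd_prime hp).1 h3 with h4 | h4
  · left; rw [hk, h4]
  · right; rw [hk, h4]

theorem inj_of_adm (hdiv : S_div) (hprt : S_prt) {B : CMPair} (hB : Adm B) (j : L →+* ℂ)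
    (hj : ∀ ψ : B.E →+* ℂ, ∃ φ : B.E →+* L, j.comp φ = ψ)
    (h2 : 2 < (Set.range (hs B j)).ncard) : Function.Injective (hs B j) := by
  rcases hB with h | ⟨p, hp, h5, h⟩ | h
  · exact hs_injective B j hj h h2
  · refine (hdiv B L j hj).2.2 ?_
    rcases ncard_cases hdiv j hj hp h with h3 | h3
    · omega
    · rw [h3, h]
  · exact (hprt B h L j hj).2.2

theorem isOrbit_hs (B : CMPair) (j : L →+* ℂ) (h : (Set.range (hs B j)).ncard ≤ 6) :
    Comb.IsOrbit (cc L) (Set.range (hs B j)) := by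
  refine ⟨stable_hs B j, trans_hs B j, fun S hS => compl_hs B j S hS, ?_, h⟩
  rintro _ ⟨φ, rfl⟩
  exact isHalf_hs B j φ

theorem fine_of_adm (hfsm : S_fsm) (hpf : S_pfine) (haf : S_afine) (hdiv : S_div) (hprt : S_prt)
    {B : CMPair} (hB : Adm B) (j : L →+* ℂ)
    (hj : ∀ ψ : B.E →+* ℂ, ∃ φ : B.E →+* L, j.comp φ = ψ) :
    Fine (cc L) (Set.range (hs B j)) := by
  classical
  have hc : ∀ g, cc L * g = g * cc L := fun g => cc_comm j g
  have hhalf : ∀ S ∈ Set.range (hs B j), Comb.Half (cc L) S := by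
    rintro _ ⟨φ, rfl⟩
    exact isHalf_hs B j φ
  rcases hB with h | ⟨p, hp, h5, h⟩ | h
  · exact hfsm _ _ hc _ (isOrbit_hs B j ((ncard_hs B j hj).trans h))
  · rcases ncard_cases hdiv j hj hp h with h3 | h3
    · exact hfsm _ _ hc _ (isOrbit_hs B j (by omega))
    · exact hpf _ _ hc _ (stable_hs B j) (trans_hs B j) (fun S hS => compl_hs B j S hS) hhalf p hp
        h5 h3
  · obtain ⟨h1, h2, -⟩ := hprt B h L j hj
    exact haf _ _ hc _ (stable_hs B j) (trans_hs B j) (fun S hS => compl_hs B j S hS) hhalf h1 h2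

/-- The stabilizers of an orbit of primitive type are not contained in a subgroup `N`. -/
theorem no_stab (j : L →+* ℂ) {Q : Set (Set (L ≃ₐ[ℚ] L))} (htr : Comb.Trans Q) {h : L ≃ₐ[ℚ] L}
    (hH : ∀ S ∈ Q, Comb.Half (cc L) S)
    (h1 : ∃ S ∈ Q, Comb.tr h S = S) (h2 : ∃ S ∈ Q, Comb.tr h S = Sᶜ) {x : Set (L ≃ₐ[ℚ] L)}
    (hx : x ∈ Q) {N : Subgroup (L ≃ₐ[ℚ] L)} (hN : IsImag N)
    (hst : Pool.Agent.W547.LD.stab x ≤ N) : False := by
  have hc : ∀ g, cc L * g = g * cc L := fun g => cc_comm j g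
  have hmem : ∀ a b : L ≃ₐ[ℚ] L, Comb.tr b (Comb.tr a x) = Comb.tr a x → b ∈ N := by
    intro a b hab
    have h3 : Comb.tr (a⁻¹ * (b * a)) x = x := by
      rw [← Comb.tr_tr, ← Comb.tr_tr, hab]
      exact Comb.tr_inv_tr a x
    have h4 : a⁻¹ * (b * a) ∈ N := hst h3
    by_cases ha : a ∈ N
    · have h5 : a * (a⁻¹ * (b * a)) * a⁻¹ ∈ N := N.mul_mem (N.mul_mem ha h4) (N.inv_mem ha)
      have h6 : a * (a⁻¹ * (b * a)) * a⁻¹ = b := by group
      rwa [h6] at h5
    · have ha' := hN.2 a ha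
      have h5 : (cc L * a) * (a⁻¹ * (b * a)) * (cc L * a)⁻¹ ∈ N :=
        N.mul_mem (N.mul_mem ha' h4) (N.inv_mem ha')
      have h6 : (cc L * a) * (a⁻¹ * (b * a)) * (cc L * a)⁻¹ = b := by
        have h7 : cc L * b = b * cc L := hc b
        calc (cc L * a) * (a⁻¹ * (b * a)) * (cc L * a)⁻¹ = (cc L * b) * (cc L)⁻¹ := by group
          _ = b := by rw [h7]; group
      rwa [h6] at h5
  obtain ⟨S, hS, hh⟩ := h1
  obtain ⟨a, rfl⟩ := htr x hx S hS
  have h3 : h ∈ N := hmem a h hh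
  obtain ⟨S, hS, hh⟩ := h2
  obtain ⟨b, rfl⟩ := htr x hx S hS
  have h4 : (cc L)⁻¹ * h ∈ N := by
    refine hmem b _ ?_
    rw [← Comb.tr_tr, hh, ← Comb.tr_c hc (hH _ hS), Comb.tr_inv_tr]
  apply hN.1
  have h5 : h * ((cc L)⁻¹ * h)⁻¹ ∈ N := N.mul_mem h3 (N.inv_mem h4)
  have h6 : h * ((cc L)⁻¹ * h)⁻¹ = cc L := by group
  rwa [h6] at h5

theorem r_prime (hmany : S_many) (hcore : S_coreF) (hfsm : S_fsm) (hpf : S_pfine)
    (haf : S_afine) (hdiv : S_div) (hprt : S_prt) (hsig : S_sig) (hD : 2 ∈ 𝒟) (X : CMAV)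
    (hX : PrimeT 𝒟 X) {κ : Type} [Finite κ]
    (f : X.H1 [⋀^κ]→ₗ[ℚ] ℚ) (hf : IsHodge X.per f) : R 𝒟 X κ f := by
  classical
  refine r_of_mono X ?_ f hf
  intro L _ _ _ _ j hj _ _ I hb
  let O : Finset (Set (Set (L ≃ₐ[ℚ] L))) :=
    Finset.univ.image fun i : X.I => Set.range (hs (X.factor i) j)
  have hmem : ∀ Q ∈ O, ∃ i, Q = Set.range (hs (X.factor i) j) := by
    intro Q hQ
    obtain ⟨i, -, h⟩ := Finset.mem_image.1 hQ
    exact ⟨i, h.symm⟩
  have hclo : ∀ i k, 2 < (Set.range (hs (X.factor i) j)).ncard →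
      2 < (Set.range (hs (X.factor k) j)).ncard →
      Comb.kerP (Set.range (hs (X.factor i) j)) = Comb.kerP (Set.range (hs (X.factor k) j)) →
      IntermediateField.normalClosure ℚ (X.factor i).E ℂ =
        IntermediateField.normalClosure ℚ (X.factor k).E ℂ := by
    intro i k h2 h2' hker
    exact le_antisymm
      (normalClosure_le (X.factor i) (X.factor k) j (hj i)
        (inj_of_adm hdiv hprt (hX.adm i) j (hj i) h2) hker.ge)
      (normalClosure_le (X.factor k) (X.factor i) j (hj k)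
        (inj_of_adm hdiv hprt (hX.adm k) j (hj k) h2') hker.le)
  have hbig : ∀ i k, 6 < finrank ℚ (X.factor i).E →
      2 < (Set.range (hs (X.factor i) j)).ncard → 2 < (Set.range (hs (X.factor k) j)).ncard →
      Comb.kerP (Set.range (hs (X.factor i) j)) = Comb.kerP (Set.range (hs (X.factor k) j)) →
      Set.range (hs (X.factor i) j) = Set.range (hs (X.factor k) j) := by
    intro i k h6 h2 h2' hker
    exact range_eq_of_sameType (X.factor i) (X.factor k) j
      (hX.two i k h6 (hclo i k h2 h2' hker))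
  refine algR_family hmany hcore hD j O ?_ ?_ ⟨?_, ?_⟩ ?_ X (fun k => St j (I k)) ?_ hb I
    (fun k => rfl)
  · intro Q hQ
    obtain ⟨i, rfl⟩ := hmem Q hQ
    exact fine_of_adm hfsm hpf haf hdiv hprt (hX.adm i) j (hj i)
  · intro Q hQ Q' hQ' hne
    obtain ⟨i, rfl⟩ := hmem Q hQ
    obtain ⟨k, rfl⟩ := hmem Q' hQ'
    rw [Set.disjoint_left]
    intro S hS hS'
    apply hne
    ext T
    constructor
    · intro hT
      obtain ⟨g, hg⟩ := trans_hs (X.factor i) j S hS T hT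
      rw [← hg]
      exact stable_hs (X.factor k) j g S hS'
    · intro hT
      obtain ⟨g, hg⟩ := trans_hs (X.factor k) j S hS' T hT
      rw [← hg]
      exact stable_hs (X.factor i) j g S hS
  · intro Q hQ Q' hQ' h6 h2' hker
    obtain ⟨i, rfl⟩ := hmem Q hQ
    obtain ⟨k, rfl⟩ := hmem Q' hQ'
    have h3 := ncard_hs (X.factor i) j (hj i)
    exact hbig i k (by omega) (by omega) h2' hker
  · intro Q hQ Q' hQ' Q'' hQ'' h2 h2' h2'' hker hker'
    obtain ⟨i, rfl⟩ := hmem Q hQ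
    obtain ⟨k, rfl⟩ := hmem Q' hQ'
    obtain ⟨l, rfl⟩ := hmem Q'' hQ''
    by_cases hi : 6 < finrank ℚ (X.factor i).E
    · exact Or.inl (hbig i k hi h2 h2' hker)
    by_cases hk : 6 < finrank ℚ (X.factor k).E
    · exact Or.inr (Or.inl (hbig k l hk h2' h2'' hker'))
    by_cases hl : 6 < finrank ℚ (X.factor l).E
    · exact Or.inr (Or.inl (hbig l k hl h2'' h2' hker'.symm).symm)
    have hne : ∀ i, 2 < (Set.range (hs (X.factor i) j)).ncard → finrank ℚ (X.factor i).E ≠ 2 := by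
      intro i h h'
      have h3 := ncard_hs (X.factor i) j (hj i)
      omega
    rcases hX.three i k l (hne i h2) (hne k h2') (hne l h2'') (not_lt.1 hi) (not_lt.1 hk)
      (not_lt.1 hl) (hclo i k h2 h2' hker) (hclo k l h2' h2'' hker') with h | h | h | h
    · exact Or.inl
        (range_eq_of_galois (X.factor i) (X.factor k) j (hj i) (not_lt.1 hi) h2 h2' hker h)
    · exact Or.inl (range_eq_of_sameType (X.factor i) (X.factor k) j h)
    · exact Or.inr (Or.inl (range_eq_of_sameType (X.factor k) (X.factor l) j h))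
    · exact Or.inr (Or.inr (range_eq_of_sameType (X.factor i) (X.factor l) j h))
  · intro Q hQ h6 x hx N hN hst
    obtain ⟨i, rfl⟩ := hmem Q hQ
    obtain ⟨φ, rfl⟩ := hx
    have h3 := ncard_hs (X.factor i) j (hj i)
    have hprim : ¬ PrimT (X.factor i) := by
      intro hp
      obtain ⟨-, ⟨h, -, h1, h2⟩, -⟩ := hprt (X.factor i) hp L j (hj i)
      refine no_stab j (trans_hs (X.factor i) j) ?_ h1 h2 ⟨φ, rfl⟩ hN hst
      rintro _ ⟨ψ, rfl⟩
      exact isHalf_hs (X.factor i) j ψ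
    obtain ⟨M, hM, h4⟩ := hsig (X.factor i) L j (hj i)
      (inj_of_adm hdiv hprt (hX.adm i) j (hj i) (by omega)) N hN φ hst
    exact ⟨M, hX.sig i (by omega) hprim M hM, h4⟩
  · intro k
    exact ⟨_, Finset.mem_image.2 ⟨(I k).1, Finset.mem_univ _, rfl⟩, (I k).2, rfl⟩

end

end Pool.Agent.Q60.D3H
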