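import Mathlib
import Pool.Agent.Q60.D3G.Top
import Pool.Agent.Q60.D3H.RPrime

/-!
# Hodge classes on products of simple abelian varieties of prime dimension: assembly
-/

set_option linter.unusedSectionVars false
set_option linter.unusedVariables false

namespace Pool.Agent.Q60.D3H

open NumberField Module Pool.Agent.H204R3.CM
open Pool.Agent.W547.KB (CMPair CMAV)
open Pool.Agent.W547.LN (SameType)
open Pool.Agent.Q60.D3 (AV IsHom IsSimple IsCM IsIsogenousToProd)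
open Pool.Agent.Q60.D3E (IsoCM HasCMType InP inP_zero isoCM_single finrank_of_type)
open Pool.Agent.Q180.WT (Gen)
open Pool.Agent.Q180.UW (IsUnitary)
open Pool.Agent.Q60.D3G

variable {𝒟 : Set ℕ} {𝒮 : Set CMPair}

/-- The conditions on the CM types. -/
structure AdmS (𝒟 : Set ℕ) (𝒮 : Set CMPair) : Prop where
  adm : ∀ B ∈ 𝒮, Adm B
  sig : ∀ B ∈ 𝒮, 6 < finrank ℚ B.E → ¬ PrimT B → ∀ M, SigB B M → M ∈ 𝒟
  two : ∀ B ∈ 𝒮, ∀ B' ∈ 𝒮, 6 < finrank ℚ B.E → IntermediateField.normalClosure ℚ B.E ℂ =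
      IntermediateField.normalClosure ℚ B'.E ℂ → SameType B B'
  three : ∀ B ∈ 𝒮, ∀ B' ∈ 𝒮, ∀ B'' ∈ 𝒮, finrank ℚ B.E ≤ 6 → finrank ℚ B'.E ≤ 6 →
    finrank ℚ B''.E ≤ 6 → IntermediateField.normalClosure ℚ B.E ℂ =
      IntermediateField.normalClosure ℚ B'.E ℂ → IntermediateField.normalClosure ℚ B'.E ℂ =
      IntermediateField.normalClosure ℚ B''.E ℂ →
    IsGalois ℚ B.E ∨ SameType B B' ∨ SameType B' B'' ∨ SameType B B''

theorem adm_two {B : CMPair} (h : finrank ℚ B.E = 2) : Adm B := Or.inl (by omega)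

/-- The lemmas. -/
structure Lem : Prop where
  many : S_many
  core : S_coreF
  fsm : S_fsm
  pf : S_pfine
  af : S_afine
  div : S_div
  prt : S_prt
  sig : S_sig

theorem fieldRange_le {F E K : Type*} [Field F] [Field E] [Field K] [Algebra F E] [Algebra F K]
    [Normal F E] (ρ ψ : E →ₐ[F] K) : ρ.fieldRange ≤ ψ.fieldRange := by
  let e : E ≃ₐ[F] ψ.fieldRange := AlgEquiv.ofInjectiveField ψ
  have : Normal F ψ.fieldRange := Normal.of_algEquiv e
  have h3 := AlgHom.fieldRange_of_normal (ρ.comp (e.symm : ψ.fieldRange →ₐ[F] E))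
  rintro _ ⟨b, rfl⟩
  have h4 : ρ b ∈ (ρ.comp (e.symm : ψ.fieldRange →ₐ[F] E)).fieldRange :=
    ⟨e b, congrArg ρ (e.symm_apply_apply b)⟩
  rw [h3] at h4
  exact h4

theorem closure_two {B B' : CMPair} (h : finrank ℚ B'.E = 2)
    (hc : IntermediateField.normalClosure ℚ B.E ℂ = IntermediateField.normalClosure ℚ B'.E ℂ) :
    finrank ℚ B.E ≤ 2 := by
  have hφ : Nonempty (B.E →ₐ[ℚ] ℂ) := ⟨IsAlgClosed.lift⟩
  obtain ⟨φ⟩ := hφ
  have h1 : φ.fieldRange ≤ IntermediateField.normalClosure ℚ B'.E ℂ := by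
    rw [← hc]
    exact φ.fieldRange_le_normalClosure
  have hφ' : Nonempty (B'.E →ₐ[ℚ] ℂ) := ⟨IsAlgClosed.lift⟩
  obtain ⟨ψ⟩ := hφ'
  have hn : Normal ℚ B'.E := by
    have : Algebra.IsQuadraticExtension ℚ B'.E := ⟨h⟩
    exact IsGalois.to_normal
  have h2 : IntermediateField.normalClosure ℚ B'.E ℂ = ψ.fieldRange := by
    refine le_antisymm ?_ ψ.fieldRange_le_normalClosure
    rw [normalClosure_le_iff]
    intro ρ
    exact fieldRange_le ρ ψ
  rw [h2] at h1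
  have h3 : finrank ℚ φ.fieldRange = finrank ℚ B.E :=
    (AlgEquiv.ofInjectiveField φ).toLinearEquiv.finrank_eq.symm
  have h4 : finrank ℚ ψ.fieldRange = finrank ℚ B'.E :=
    (AlgEquiv.ofInjectiveField ψ).toLinearEquiv.finrank_eq.symm
  have h5 : finrank ℚ φ.fieldRange ≤ finrank ℚ ψ.fieldRange := by
    have : FiniteDimensional ℚ ψ.fieldRange :=
      LinearEquiv.finiteDimensional (AlgEquiv.ofInjectiveField ψ).toLinearEquiv
    exact LinearMap.finrank_le_finrank_of_injective (f := (IntermediateField.inclusion h1).toLinearMap)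
      (IntermediateField.inclusion h1).injective
  omega

/-- The Hodge classes on the products of abelian varieties of CM type. -/
theorem gen_of_inP (hl : Lem) (hD : 2 ∈ 𝒟) (hS : AdmS 𝒟 𝒮)
    {Y : AV} (hY : InP 𝒮 Y) {κ : Type} [Finite κ] (f : Y.H [⋀^κ]→ₗ[ℚ] ℚ) (hf : IsHodge Y.per f) :
    Gen 𝒟 Y κ f := by
  obtain ⟨X, hX, e, C, h⟩ := hY
  have hX' : PrimeT 𝒟 X := by
    refine ⟨fun i => ?_, fun i hi => ?_, fun i k hi hc => ?_, fun i k l hi hk hl _ _ _ h1 h2 => ?_⟩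
    · rcases hX i with h1 | h1
      · exact hS.adm _ h1
      · exact adm_two h1
    · rcases hX i with h1 | h1
      · exact hS.sig _ h1 hi
      · omega
    · have h1 : X.factor i ∈ 𝒮 := (hX i).resolve_right (by omega)
      rcases hX k with h2 | h2
      · exact hS.two _ h1 _ h2 hi hc
      · have := closure_two h2 hc
        omega
    · exact hS.three _ ((hX i).resolve_right hi) _ ((hX k).resolve_right hk) _
        ((hX l).resolve_right hl) ‹_› ‹_› ‹_› h1 h2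
  have h1 : IsHodge X.per (f.compLinearMap e.symm.toLinearMap) := by
    refine Pool.Agent.W437.HK.isHodge_pullback (Φ := C.symm.toLinearMap) (fun w => ?_) hf
    have h2 := h (e.symm w)
    rw [e.apply_symm_apply] at h2
    change Y.per (e.symm w) = C.symm (X.per w)
    rw [← h2, C.symm_apply_apply]
  have h3 : Gen 𝒟 (av X) κ (f.compLinearMap e.symm.toLinearMap) :=
    r_prime hl.many hl.core hl.fsm hl.pf hl.af hl.div hl.prt hl.sig hD X hX' _ h1
  have h5 := Gen.pull (X := Y) (Y := av X) e.toLinearMap ⟨C.toLinearMap, h⟩ _ h3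
  have h4 : (f.compLinearMap e.symm.toLinearMap).compLinearMap e.toLinearMap = f := by
    ext v
    change f (fun l => e.symm (e (v l))) = f v
    congr 1
    funext l
    exact e.symm_apply_apply _
  have h6 : ∀ g : Y.H [⋀^κ]→ₗ[ℚ] ℚ, Gen 𝒟 Y κ g → g = f → Gen 𝒟 Y κ f := by
    rintro g hg rfl
    exact hg
  exact h6 _ h5 h4

/-- The theorem, from the lemmas. -/
theorem top (hl : Lem) (hw : S_w2w) (huni : S_uni) (hiso : S_iso) (hkms : S_kms) (humu : S_umu)
    (hD : 2 ∈ 𝒟) {ι : Type} [Finite ι] {X : AV} {A : ι → AV} (hX : IsIsogenousToProd X A)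
    (hA : ∀ i, (IsSimple (A i) ∧ finrank ℂ (A i).T ≤ 3) ∨
      (IsSimple (A i) ∧ (finrank ℂ (A i).T).Prime ∧ ∀ M, KMult (A i) M → M ∈ 𝒟) ∨
      (∃ M ∈ 𝒟, IsUnitary (A i) 2 M) ∨
      (Odd (finrank ℂ (A i).T) ∧
        ∀ h : (A i).H →ₗ[ℚ] (A i).H, IsHom (A i) (A i) h → ∃ a : ℚ, h = a • LinearMap.id) ∨
      ∃ B, HasCMType (A i) B ∧ PrimT B)
    (htwo : ∀ i k (B B' : CMPair), 3 < finrank ℂ (A i).T → HasCMType (A i) B →
      HasCMType (A k) B' → IntermediateField.normalClosure ℚ B.E ℂ =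
        IntermediateField.normalClosure ℚ B'.E ℂ → SameType B B')
    (hthree : ∀ i k l (B B' B'' : CMPair), finrank ℂ (A i).T ≤ 3 → finrank ℂ (A k).T ≤ 3 →
      finrank ℂ (A l).T ≤ 3 → HasCMType (A i) B → HasCMType (A k) B' →
      HasCMType (A l) B'' →
      IntermediateField.normalClosure ℚ B.E ℂ = IntermediateField.normalClosure ℚ B'.E ℂ →
      IntermediateField.normalClosure ℚ B'.E ℂ = IntermediateField.normalClosure ℚ B''.E ℂ →
      IsGalois ℚ B.E ∨ SameType B B' ∨ SameType B' B'' ∨ SameType B B'')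
    {κ : Type} [Finite κ] (f : X.H [⋀^κ]→ₗ[ℚ] ℚ) : IsHodge X.per f ↔ Gen 𝒟 X κ f := by
  refine ⟨fun hf => ?_, fun hf => Pool.Agent.Q247.WT.conv 𝒟 X κ f hf inferInstance⟩
  let 𝒮 : Set CMPair := {B | ∃ i, HasCMType (A i) B ∧
    Adm B ∧ (3 < finrank ℂ (A i).T → ¬ PrimT B → ∀ M, SigB B M → M ∈ 𝒟)}
  have hS : AdmS 𝒟 𝒮 := by
    refine ⟨?_, ?_, ?_, ?_⟩
    · rintro B ⟨i, hi, h, -⟩
      exact h
    · rintro B ⟨i, hi, h, h'⟩ h6
      rw [finrank_of_type hi] at h6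
      exact h' (by omega)
    · rintro B ⟨i, hi, -⟩ B' ⟨k, hk, -⟩ h6 hc
      rw [finrank_of_type hi] at h6
      exact htwo i k B B' (by omega) hi hk hc
    · rintro B ⟨i, hi, -⟩ B' ⟨k, hk, -⟩ B'' ⟨l, hl, -⟩ h6 h6' h6'' h h'
      rw [finrank_of_type hi] at h6
      rw [finrank_of_type hk] at h6'
      rw [finrank_of_type hl] at h6''
      exact hthree i k l B B' B'' (by omega) (by omega) (by omega) hi hk hl h h'
  have hone : ∀ (e M : ℕ) (B : AV), (e, M) ∈ WW 𝒟 → IsCM B → 2 * finrank ℂ B.T = e →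
      Cl 𝒮 B := by
    intro e M B he hcm hd
    have h1 : e = 2 := he.1
    have h2 : finrank ℂ B.T = 1 := by omega
    obtain ⟨B', hB'⟩ := Pool.Agent.Q60.D3E.cls' B (Pool.Agent.Q261.D3E.one B h2) hcm
      (by rw [h2]; exact one_pos)
    refine Or.inr ⟨B', hB', Or.inr ?_⟩
    rw [finrank_of_type hB', h2]
  have hA' : ∀ i, (IsCM (A i) ∧ Cl 𝒮 (A i)) ∨
      (∃ e M, (e, M) ∈ WW 𝒟 ∧ IsUnitary (A i) e M) ∨
      (IsSimple (A i) ∧ (finrank ℂ (A i).T = 1 ∨ (finrank ℂ (A i).T).Prime) ∧ ¬ IsCM (A i) ∧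
        ¬ ∃ e M, IsUnitary (A i) e M) ∨
      (Odd (finrank ℂ (A i).T) ∧
        ∀ h : (A i).H →ₗ[ℚ] (A i).H, IsHom (A i) (A i) h → ∃ a : ℚ, h = a • LinearMap.id) := by
    intro i
    rcases hA i with ⟨hs, h3⟩ | ⟨hs, hp, hM⟩ | ⟨M, hM, hu⟩ | h | ⟨B, hB, hprt⟩
    · by_cases hcm : IsCM (A i)
      · refine Or.inl ⟨hcm, ?_⟩
        by_cases h0 : finrank ℂ (A i).T = 0
        · exact Or.inl h0
        · obtain ⟨B, hB⟩ := Pool.Agent.Q60.D3E.cls' (A i) hs hcm (Nat.pos_of_ne_zero h0)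
          refine Or.inr ⟨B, hB, Or.inl ⟨i, hB, Or.inl ?_, fun h => absurd h (by omega)⟩⟩
          rw [finrank_of_type hB]
          omega
      · by_cases hu : ∃ e M, IsUnitary (A i) e M
        · obtain ⟨e, M, hu⟩ := hu
          exact Or.inr (Or.inl ⟨2, 2, ⟨rfl, hD⟩, ((huni (A i) e M hu).1 h3).2⟩)
        · refine Or.inr (Or.inr (Or.inl ⟨hs, ?_, hcm, hu⟩))
          have h0 : finrank ℂ (A i).T ≠ 0 := fun h => hcm (isCM_zero h)
          have h1 : finrank ℂ (A i).T = 1 ∨ finrank ℂ (A i).T = 2 ∨ finrank ℂ (A i).T = 3 := by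
            omega
          rcases h1 with h1 | h1 | h1
          · exact Or.inl h1
          · rw [h1]
            exact Or.inr Nat.prime_two
          · rw [h1]
            exact Or.inr Nat.prime_three
    · by_cases hcm : IsCM (A i)
      · refine Or.inl ⟨hcm, ?_⟩
        obtain ⟨B, hB⟩ := Pool.Agent.Q60.D3E.cls' (A i) hs hcm hp.pos
        refine Or.inr ⟨B, hB, Or.inl ⟨i, hB, ?_, fun _ _ M hMB => hM M (hkms (A i) B hB M hMB)⟩⟩
        by_cases h3 : finrank ℂ (A i).T ≤ 3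
        · refine Or.inl ?_
          rw [finrank_of_type hB]
          omega
        · refine Or.inr (Or.inl ⟨finrank ℂ (A i).T, hp, ?_, finrank_of_type hB⟩)
          by_contra h5
          have h4 : finrank ℂ (A i).T = 4 := by omega
          rw [h4] at hp
          revert hp
          decide
      · by_cases hu : ∃ e M, IsUnitary (A i) e M
        · obtain ⟨e, M, hu⟩ := hu
          have h1 := (huni (A i) e M hu).2 hp
          subst h1
          obtain ⟨M', hM', hu'⟩ := humu (A i) M hu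
          exact Or.inr (Or.inl ⟨2, M', ⟨rfl, hM M' hM'⟩, hu'⟩)
        · exact Or.inr (Or.inr (Or.inl ⟨hs, Or.inr hp, hcm, hu⟩))
    · exact Or.inr (Or.inl ⟨2, M, ⟨rfl, hM⟩, hu⟩)
    · exact Or.inr (Or.inr (Or.inr h))
    · refine Or.inl ⟨Pool.Agent.Q237.D3E.iscm (A i) ⟨Unit, fun _ => B⟩ (isoCM_single hB), ?_⟩
      refine Or.inr ⟨B, hB, Or.inl ⟨i, hB, Or.inr (Or.inr hprt), fun _ h => absurd hprt h⟩⟩
  have h7 := (Pool.Agent.Q180.UW.main (WW 𝒟) (Cl 𝒮) hone ι X A hX hA' κ f).1 hf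
  exact gen_of_genU hw hiso (fun {Y} hY {κ} _ f hf => gen_of_inP hl hD hS hY f hf)
    f h7 inferInstance

end Pool.Agent.Q60.D3H
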