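import Mathlib
import Pool.Agent.Q60.D3G.Fine
import Pool.Agent.Q60.D3H.Top
import Pool.Agent.Q14.D3H.Afine
import Pool.Agent.Q14.D3H.Fpart
import Pool.Agent.Q154.D3H.Kms
import Pool.Agent.Q177.D3H.Many
import Pool.Agent.Q182.D3H.Prt
import Pool.Agent.Q210.D3H.Fsm
import Pool.Agent.Q210.D3H.Pfine
import Pool.Agent.Q225.D3H.CoreF
import Pool.Agent.Q225.D3H.Div
import Pool.Agent.Q261.D3H.Sig
import Pool.Agent.Q261.D3H.Umu
import Pool.Agent.Q38.D3H.PIND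
import Pool.Agent.Q38.D3H.PREP

/-!
# Hodge classes on products of simple abelian varieties of prime dimension
-/

namespace Pool.Agent.Q60.D3H

open Module Pool.Agent.H204R3.CM
open Pool.Agent.W547.KB (CMPair CMAV)
open Pool.Agent.W547.LN (SameType)
open Pool.Agent.Q60.D3 (AV IsHom IsSimple IsCM IsIsogenousToProd)
open Pool.Agent.Q60.D3E (HasCMType)
open Pool.Agent.Q180.WT (Gen)
open Pool.Agent.Q180.UW (IsUnitary)
open Pool.Agent.Q60.D3G

theorem pair' : S_pair :=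
  pair (Q146.D3G.irr Pool.Agent.Q225.D3G.line) Pool.Agent.Q211.D3G.proj
    (Pool.Agent.Q14.D3G.struct Pool.Agent.Q211.D3G.proj) Q146.D3G.cmp

/-- The lemmas. -/
theorem lem : Lem where
  many := Pool.Agent.Q177.D3H.many (Pool.Agent.Q14.D3H.fpart Pool.Agent.Q211.D3G.sep' pair')
  core := Pool.Agent.Q225.D3H.coref Pool.Agent.Q274.D3G.root Pool.Agent.Q58.D3G.lap
    Pool.Agent.Q58.D3G.trc Pool.Agent.Q174.D3G.cko
  fsm := Pool.Agent.Q210.D3H.fsm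
  pf := Pool.Agent.Q210.D3H.pfine Pool.Agent.Q38.D3H.prep
    (Pool.Agent.Q38.D3H.pind Pool.Agent.Q210.D3H.cyc) Pool.Agent.Q225.D3G.line
  af := Pool.Agent.Q14.D3H.afine
  div := Pool.Agent.Q225.D3H.div
  prt := Pool.Agent.Q182.D3H.Prt.prt
  sig := Pool.Agent.Q261.D3H.sig

/-- **The theorem on Hodge classes on products of abelian varieties of CM types.** -/
theorem cm {𝒟 : Set ℕ} (hD : 2 ∈ 𝒟) (X : CMAV) (hX : PrimeT 𝒟 X) {κ : Type} [Finite κ]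
    (f : X.H1 [⋀^κ]→ₗ[ℚ] ℚ) (hf : IsHodge X.per f) : R 𝒟 X κ f :=
  r_prime lem.many lem.core lem.fsm lem.pf lem.af lem.div lem.prt lem.sig hD X hX f hf

/-- **The theorem on Hodge classes.** -/
theorem hodge {𝒟 : Set ℕ} (hD : 2 ∈ 𝒟) {ι : Type} [Finite ι] {X : AV} {A : ι → AV}
    (hX : IsIsogenousToProd X A)
    (hA : ∀ i, (IsSimple (A i) ∧ finrank ℂ (A i).T ≤ 3) ∨
      (IsSimple (A i) ∧ (finrank ℂ (A i).T).Prime ∧ ∀ M, KMult (A i) M → M ∈ 𝒟) ∨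
      (∃ M ∈ 𝒟, IsUnitary (A i) 2 M) ∨
      (Odd (finrank ℂ (A i).T) ∧
        ∀ h : (A i).H →ₗ[ℚ] (A i).H, IsHom (A i) (A i) h → ∃ a : ℚ, h = a • LinearMap.id) ∨
      ∃ B, HasCMType (A i) B ∧ PrimT B)
    (htwo : ∀ i k (B B' : CMPair), 3 < finrank ℂ (A i).T → HasCMType (A i) B →
      HasCMType (A k) B' → IntermediateField.normalClosure ℚ B.E ℂ =
        IntermediateField.normalClosure ℚ B'.E ℂ → SameType B B')
    (hthree : ∀ i k l (B B' B'' : CMPair), finrank ℂ (A i).T ≤ 3 → finrank ℂ (A k).T ≤ 3 →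
      finrank ℂ (A l).T ≤ 3 → HasCMType (A i) B → HasCMType (A k) B' →
      HasCMType (A l) B'' →
      IntermediateField.normalClosure ℚ B.E ℂ = IntermediateField.normalClosure ℚ B'.E ℂ →
      IntermediateField.normalClosure ℚ B'.E ℂ = IntermediateField.normalClosure ℚ B''.E ℂ →
      IsGalois ℚ B.E ∨ SameType B B' ∨ SameType B' B'' ∨ SameType B B'')
    {κ : Type} [Finite κ] (f : X.H [⋀^κ]→ₗ[ℚ] ℚ) : IsHodge X.per f ↔ Gen 𝒟 X κ f :=
  top lem Pool.Agent.Q58.D3G.w2w Pool.Agent.Q58.D3G.uni Pool.Agent.Q58.D3G.iso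
    Pool.Agent.Q154.D3H.kms Pool.Agent.Q261.D3H.umu hD hX hA htwo hthree f

end Pool.Agent.Q60.D3H
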