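import Mathlib
import Pool.Agent.Q60.D3H.StmA

/-!
# Project D3H, part III: two larger classes of CM types

Notation as in `StmC.lean` and `StmA.lean`.
-/

namespace Pool.Agent.Q60.D3H

open NumberField Module Pool.Agent.H204R3.CM Pool.Agent.W547.LD.Comb
open Pool.Agent.W547.KB (CMPair)
open Pool.Agent.W547.LD (hs)

/-- JOB D1 NFINE (hypothesis `Pool.Agent.Q60.D3G.S_line`). Orbits whose functions `eps S` (one for each
pair of complements) are linearly independent and for which the stabilizer of a pair `{S, Sᶜ}` is a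
maximal subgroup.
Write `n = Q.ncard / 2 ≥ 4`, `Q = {S i, (S i)ᶜ}`, `t i = eps (S i)`, a basis of `VV Q`; `rtr h (t i) = ± t k`.
`G` permutes the `n` pairs primitively (transitively, with maximal point stabilizers).
Proof of `sum`: let `M` be normal, not contained in `kerP Q`, and let `W` be the space of the `F ∈ VV Q`
with `rtr h F = F` for `h ∈ M`; it is stable under `G` and contains `∑ h : M, rtr h F`. If all elements of
`M` fix all pairs and `W ≠ 0`: `M` acts on each `t i` by a sign; `M` is normal and acts nontrivially on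
some `t i`, hence (transitivity, conjugation) on each `t i`, so `W = 0` by independence. Otherwise the
orbits of `M` on the pairs are blocks (the subgroup `U' M`, `U'` the stabilizer of a pair, contains `U'`
properly for some, hence every pair, and is `⊤`), so `M` permutes the pairs transitively, and an element of `W`
is determined by its coefficient at `t 0` (its coefficients are equal up to signs prescribed by `M`); so
`W` has dimension at most one, it is stable under `G`, so each `rtr g F`, `F ∈ W`, is a multiple of `F`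
and `F ∈ QQ c` by `S_line` (`F` is odd).
Proof of `good`: `FF a = 2 ∑ a (S i) • t i`. Let `W = VV Q ⊓ QQ c`, `F = FF a ∈ W`. Claim: `W` has dimension
at most one. For an odd quadratic character `chi N` the projection of `VV Q` to its line is in `VV Q`
(`Pool.Agent.Q60.D3G.S_proj`, or directly: `∑ g, chi N g • rtr g F`), so `W` is spanned by characters
`chi N`, `chi N'`; if `chi N = ∑ b i • t i ∈ VV Q` then `rtr g (chi N) = ± chi N` shows that all `b i` are
equal up to signs and for `h` in the stabilizer `U'` of the pair of `S 0` that `rtr h (chi N) = chi N` iff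
`rtr h (t 0) = t 0`. So for two characters `N ∩ U' = N' ∩ U'`; the subgroup
`H = {g | g ∈ N ↔ g ∈ N'}` contains `U'` and has index at most two, so `H ≤ U'` or `H = ⊤`; if `H = ⊤` then
`N = N'`; otherwise the index of `U'`, which is `n`, is at most two, a contradiction. So
`F = r • chi N`, `r ≠ 0` (`F ≠ 0` as `a x ≠ 0`, independence), `F = 2 ∑ a (S i) • t i`, all `a (S i)` have
the same absolute value; replacing some `S i` by the complements they are all equal to `α = a x` if we
also arrange that `x = S k` (`a` is odd). `Σ = ∑ t i = (r / 2 α) • chi N`. `rtr h` for `h ∈ N` fixes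
`Σ` and permutes the `± t i`, so it permutes the `t i` (independence), and `a (tr h S) = a S` for `h ∈ N`
and all `S`. The orbit of `x` under `N` is `{S i}`: `N` and `c` generate `G`, `c` acts by complements, so
`N` permutes the pairs transitively. It has `n` elements, `2 n = Q.ncard > 6`. `psum N x = Σ`, so
`psum N x 1 = Σ 1 = r / 2 α ≠ 0`. If `h ∈ stb x` then `rtr h Σ = ± Σ` has the coefficient one at
`t k`, so `h ∈ N` (`c`-part: `rtr h Σ = Σ` iff `h ∈ N`). -/
def S_nfine : Prop :=
  ∀ (G : Type) [Group G] [Fintype G] (c : G), (∀ g, c * g = g * c) → ∀ Q : Set (Set G), Stable Q →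
    Trans Q → (∀ S ∈ Q, Sᶜ ∈ Q) → (∀ S ∈ Q, Half c S) →
    (∀ S ∈ Q, ∀ H : Subgroup G, (∀ τ, tr τ S = S ∨ tr τ S = Sᶜ → τ ∈ H) →
      (∀ τ ∈ H, tr τ S = S ∨ tr τ S = Sᶜ) ∨ H = ⊤) →
    6 < Q.ncard →
    (∀ a : Set G → ℚ, (∀ S, S ∉ Q → a S = 0) → (∀ S, a Sᶜ = -a S) → FF a = 0 → a = 0) →
    Fine c Q

/-- JOB D2 SFINE. Orbits such that for two different pairs some element fixes all pairs, fixes the
elements of the first pair and exchanges those of the second.
Proof: compare `Pool.Agent.Q14.D3H.afine` (job C6 AFINE). Let `C` be the normal subgroup of the elements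
which fix all pairs; it acts on each `eps S`, `S ∈ Q`, by a sign `χ S : C → {1, -1}`. By the hypothesis
`χ S ≠ χ T` whenever `T ≠ S`, `T ≠ Sᶜ`; so the functions `eps S`, one for each pair, are linearly
independent (eigenvectors with different characters). `sum`: let `M` be normal, not contained in
`kerP Q`, `C' = M ⊓ C`. If `C' ≤ kerP Q` then for `h ∈ M` and `k ∈ C` the commutator is in `C'` and acts
trivially, so `χ (tr h S) = χ S` and `h` fixes all pairs, `M ≤ C`, `M = C' ≤ kerP Q`, a contradiction. So
some `χ S` is not trivial on `C'`; then (conjugation, `C'` is normal, transitivity) no `χ S` is trivial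
on `C'`, so for each `S ∈ Q` there is `h ∈ M` with `rtr h (eps S) = - eps S`, and
`∑ h : M, rtr h (eps S) = 0`. `good`: let `C'` be the subgroup generated by the commutators of elements of
`G` and of `C`, a normal subgroup; if it were contained in `kerP Q`, then `χ (tr g S) = χ S` for all `g`, so
`Q` has only one pair (`2 < Q.ncard` excludes this). So no `χ S` is trivial on `C'`; commutators act
trivially on `QQ c`, so for `F = ∑ b i • eps (S i) ∈ QQ c` (one `S i` for each pair)
`b i (χ (S i) h - 1) = 0` for all `h ∈ C'`, and `b i = 0`. So `a = 0`, contradicting `a x ≠ 0`. -/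
def S_sfine : Prop :=
  ∀ (G : Type) [Group G] [Fintype G] (c : G), (∀ g, c * g = g * c) → ∀ Q : Set (Set G), Stable Q →
    Trans Q → (∀ S ∈ Q, Sᶜ ∈ Q) → (∀ S ∈ Q, Half c S) → 2 < Q.ncard →
    (∀ S ∈ Q, ∀ T ∈ Q, T ≠ S → T ≠ Sᶜ →
      ∃ h, (∀ R ∈ Q, tr h R = R ∨ tr h R = Rᶜ) ∧ tr h S = S ∧ tr h T = Tᶜ) →
    Fine c Q

/-- The CM type of `B` is nondegenerate: the matrix with the entries `1` or `-1` for the automorphisms
`σ` of `ℂ` and the embeddings `φ`, according to whether `σ ∘ φ` is in the CM type or not, has rank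
`[E : ℚ] / 2`, `E` the field of `B`. -/
def NonDeg (B : CMPair) : Prop :=
  2 * finrank ℚ (Submodule.span ℚ (Set.range fun (σ : ℂ ≃+* ℂ) (φ : B.E →+* ℂ) =>
    by classical exact (if (σ : ℂ →+* ℂ).comp φ ∈ B.Φ then (1 : ℚ) else -1))) = finrank ℚ B.E

/-- The CM type of `B` is nondegenerate, and the maximal real subfield of the field of `B` has no
subfields except itself and `ℚ`. -/
def NonDegPrim (B : CMPair) : Prop :=
  NonDeg B ∧
  ∀ F : Subfield B.E, F ≤ maximalRealSubfield B.E → F = ⊥ ∨ F = maximalRealSubfield B.E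

/-- For two embeddings `φ`, `ψ` of the field `E` of `B` which are different on the maximal real
subfield `F` there is an automorphism of `ℂ` which is the identity on all conjugates of `F` and on
`φ (E)`, but not on `ψ (E)`. (If `E = F (√-α)`: the product of two different conjugates of `α` is not
a square in the Galois closure of `F`.) -/
def SepT (B : CMPair) : Prop :=
  ∀ φ ψ : B.E →+* ℂ, (∃ a ∈ maximalRealSubfield B.E, φ a ≠ ψ a) →
    ∃ σ : ℂ ≃+* ℂ, (∀ ρ : B.E →+* ℂ, ∀ a ∈ maximalRealSubfield B.E, σ (ρ a) = ρ a) ∧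
      (∀ a, σ (φ a) = φ a) ∧ ∃ a, σ (ψ a) ≠ ψ a

/-- JOB D3 NPT. The orbit of a nondegenerate CM type.
Proof. First claim: part (1) of the proof of `Pool.Agent.Q182.D3H.Prt.prt` (job A6), unchanged.
Injectivity and third claim: for `σ` an automorphism of `ℂ` let `g` be its restriction to `L` (by `j`;
`j '' L` is stable as `L` is Galois; conversely each `g ∈ Gal (L / ℚ)` is the restriction of some `σ`, see
`Pool.Agent.H977R3.CM.Aut`); for `φ : B.E →+* L` we have `σ ∘ (j ∘ φ) = j ∘ (g • φ)`, which is in `B.Φ` iff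
`g ∈ hs B j φ`; so the entry of the matrix for `σ` and `j ∘ φ` is `eps (hs B j φ) g`. All complex
embeddings are `j ∘ φ` (`hj`). The row rank of this matrix is equal to the rank of its columns
`eps (hs B j φ)`, the dimension of `VV Q`, `Q = Set.range (hs B j)`; the columns of complex conjugate
embeddings are opposite (`compl_hs`). So `VV Q` has dimension `[B.E : ℚ] / 2`; it is spanned by the
`eps S`, one for each pair, at most `[B.E : ℚ] / 2` functions; so `hs B j` is injective and these
functions are linearly independent; and `FF a = 2 ∑ a (S i) • eps (S i)`. -/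
def S_npt : Prop :=
  ∀ (B : CMPair), NonDegPrim B → ∀ (L : Type) [Field L] [NumberField L] [IsCMField L]
    [IsGalois ℚ L] (j : L →+* ℂ), (∀ ψ : B.E →+* ℂ, ∃ φ : B.E →+* L, j.comp φ = ψ) →
    (∀ S ∈ Set.range (hs B j), ∀ H : Subgroup (L ≃ₐ[ℚ] L),
      (∀ τ, tr τ S = S ∨ tr τ S = Sᶜ → τ ∈ H) → (∀ τ ∈ H, tr τ S = S ∨ tr τ S = Sᶜ) ∨ H = ⊤) ∧
    Function.Injective (hs B j) ∧
    (∀ a : Set (L ≃ₐ[ℚ] L) → ℚ, (∀ S, S ∉ Set.range (hs B j) → a S = 0) → (∀ S, a Sᶜ = -a S) →
      FF a = 0 → a = 0)

/-- JOB D4 SPT. The orbit of a CM type with `SepT`.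
Proof. Let `S = hs B j φ`, `T = hs B j ψ`, `T ≠ S`, `T ≠ Sᶜ`. Then `φ` and `ψ` are different on the maximal
real subfield `F` (two embeddings which agree on `F` are equal or complex conjugate, and `compl_hs`).
Apply `SepT` to `j ∘ φ`, `j ∘ ψ`, and let `h` be the restriction of `σ` to `L` (by `j`). `h • ρ` agrees with
`ρ` on `F` for each embedding `ρ`, so it is `ρ` or its complex conjugate, and `tr h (hs B j ρ) = hs B j (h • ρ)`
is `hs B j ρ` or its complement; `h • φ = φ`; `h • ψ ≠ ψ`, so `h • ψ` is the conjugate of `ψ` and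
`tr h T = Tᶜ`. Injectivity: if `hs B j φ = hs B j ψ` and `φ ≠ ψ`, then `ψ` is not the conjugate of `φ`
(`compl_hs`), so they differ on `F`, and `h` as above gives `tr h S = S`, `tr h S = Sᶜ`, a
contradiction. -/
def S_spt : Prop :=
  ∀ (B : CMPair), SepT B → ∀ (L : Type) [Field L] [NumberField L] [IsCMField L]
    [IsGalois ℚ L] (j : L →+* ℂ), (∀ ψ : B.E →+* ℂ, ∃ φ : B.E →+* L, j.comp φ = ψ) →
    (∀ S ∈ Set.range (hs B j), ∀ T ∈ Set.range (hs B j), T ≠ S → T ≠ Sᶜ →
      ∃ h, (∀ R ∈ Set.range (hs B j), tr h R = R ∨ tr h R = Rᶜ) ∧ tr h S = S ∧ tr h T = Tᶜ) ∧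
    Function.Injective (hs B j)

end Pool.Agent.Q60.D3H
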