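import Mathlib
import Pool.Agent.Q60.D3H.RPrime
import Pool.Agent.Q60.D3H.StmD

/-!
# Hodge classes on products of abelian varieties of CM types of prime dimension, nondegenerate and
primitive, or of separated type
-/

set_option linter.unusedSectionVars false
set_option linter.unusedVariables false

namespace Pool.Agent.Q60.D3H

open NumberField Pool.Agent.H204R3.CM Equiv Module
open Pool.Agent.W547.KB hiding Gen IsHom
open Pool.Agent.W547.LD hiding tr stab
open Pool.Agent.W547.LN (SameType hs_injective normalClosure_le range_eq_of_galois range_eq_of_sameType)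
open Pool.Agent.Q60.D3G

noncomputable section

variable {𝒟 : Set ℕ}

/-- The admitted CM types: degree at most six, twice a prime number, nondegenerate with a maximal real
subfield without proper subfields except `ℚ`, or of separated type. -/
def AdmG (B : CMPair) : Prop :=
  finrank ℚ B.E ≤ 6 ∨ (∃ p : ℕ, p.Prime ∧ 5 ≤ p ∧ finrank ℚ B.E = 2 * p) ∨ NonDegPrim B ∨ SepT B

/-- The conditions on the factors of `X`. -/
structure GenT (𝒟 : Set ℕ) (X : CMAV) : Prop where
  adm : ∀ i, AdmG (X.factor i)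
  sig : ∀ i, 6 < finrank ℚ (X.factor i).E → ¬ SepT (X.factor i) →
    ∀ M, SigB (X.factor i) M → M ∈ 𝒟
  two : ∀ i k, 6 < finrank ℚ (X.factor i).E →
    IntermediateField.normalClosure ℚ (X.factor i).E ℂ =
      IntermediateField.normalClosure ℚ (X.factor k).E ℂ → SameType (X.factor i) (X.factor k)
  three : ∀ i k l, finrank ℚ (X.factor i).E ≠ 2 → finrank ℚ (X.factor k).E ≠ 2 →
    finrank ℚ (X.factor l).E ≠ 2 → finrank ℚ (X.factor i).E ≤ 6 → finrank ℚ (X.factor k).E ≤ 6 →
    finrank ℚ (X.factor l).E ≤ 6 → IntermediateField.normalClosure ℚ (X.factor i).E ℂ =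
      IntermediateField.normalClosure ℚ (X.factor k).E ℂ →
    IntermediateField.normalClosure ℚ (X.factor k).E ℂ =
      IntermediateField.normalClosure ℚ (X.factor l).E ℂ →
    IsGalois ℚ (X.factor i).E ∨ SameType (X.factor i) (X.factor k) ∨
      SameType (X.factor k) (X.factor l) ∨ SameType (X.factor i) (X.factor l)

variable {L : Type} [Field L] [NumberField L] [IsCMField L] [IsGalois ℚ L]

theorem ncard_of_inj {B : CMPair} (j : L →+* ℂ)
    (hj : ∀ ψ : B.E →+* ℂ, ∃ φ : B.E →+* L, j.comp φ = ψ) (h : Function.Injective (hs B j)) :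
    (Set.range (hs B j)).ncard = finrank ℚ B.E := by
  rw [← Pool.Agent.W547.LN.card_hom B j hj, ← Set.image_univ,
    Set.ncard_image_of_injective _ h, Set.ncard_univ]

theorem inj_of_admG (hdiv : S_div) (hnpt : S_npt) (hspt : S_spt) {B : CMPair} (hB : AdmG B)
    (j : L →+* ℂ) (hj : ∀ ψ : B.E →+* ℂ, ∃ φ : B.E →+* L, j.comp φ = ψ)
    (h2 : 2 < (Set.range (hs B j)).ncard) : Function.Injective (hs B j) := by
  rcases hB with h | ⟨p, hp, h5, h⟩ | h | h
  · exact hs_injective B j hj h h2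
  · refine (hdiv B L j hj).2.2 ?_
    rcases ncard_cases hdiv j hj hp h with h3 | h3
    · omega
    · rw [h3, h]
  · exact (hnpt B h L j hj).2.1
  · exact (hspt B h L j hj).2

theorem fine_of_admG (hfsm : S_fsm) (hpf : S_pfine) (hnf : S_nfine) (hsf : S_sfine)
    (hdiv : S_div) (hnpt : S_npt) (hspt : S_spt)
    {B : CMPair} (hB : AdmG B) (j : L →+* ℂ)
    (hj : ∀ ψ : B.E →+* ℂ, ∃ φ : B.E →+* L, j.comp φ = ψ) :
    Fine (cc L) (Set.range (hs B j)) := by
  classical
  have hc : ∀ g, cc L * g = g * cc L := fun g => cc_comm j g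
  have hhalf : ∀ S ∈ Set.range (hs B j), Comb.Half (cc L) S := by
    rintro _ ⟨φ, rfl⟩
    exact isHalf_hs B j φ
  have hcompl : ∀ S ∈ Set.range (hs B j), Sᶜ ∈ Set.range (hs B j) := fun S hS => compl_hs B j S hS
  rcases hB with h | ⟨p, hp, h5, h⟩ | h | h
  · exact hfsm _ _ hc _ (isOrbit_hs B j ((ncard_hs B j hj).trans h))
  · rcases ncard_cases hdiv j hj hp h with h3 | h3
    · exact hfsm _ _ hc _ (isOrbit_hs B j (by omega))
    · exact hpf _ _ hc _ (stable_hs B j) (trans_hs B j) hcompl hhalf p hp h5 h3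
  · obtain ⟨h1, h2, h3⟩ := hnpt B h L j hj
    by_cases h6 : 6 < (Set.range (hs B j)).ncard
    · exact hnf _ _ hc _ (stable_hs B j) (trans_hs B j) hcompl hhalf h1 h6 h3
    · exact hfsm _ _ hc _ (isOrbit_hs B j (not_lt.1 h6))
  · obtain ⟨h1, h2⟩ := hspt B h L j hj
    by_cases h6 : 2 < (Set.range (hs B j)).ncard
    · exact hsf _ _ hc _ (stable_hs B j) (trans_hs B j) hcompl hhalf h6 h1
    · exact hfsm _ _ hc _ (isOrbit_hs B j (by omega))

/-- Two different pairs. -/
theorem exists_pair {G : Type} [Finite G] {Q : Set (Set G)} (h : 2 < Q.ncard) {S : Set G}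
    (hS : S ∈ Q) : ∃ T ∈ Q, T ≠ S ∧ T ≠ Sᶜ := by
  classical
  by_contra hcon
  push Not at hcon
  have h1 : Q ⊆ {S, Sᶜ} := by
    intro T hT
    by_cases h2 : T = S
    · exact Or.inl h2
    · exact Or.inr (hcon T hT h2)
  have h2 : Q.ncard ≤ ({S, Sᶜ} : Set (Set G)).ncard := Set.ncard_le_ncard h1 (Set.toFinite _)
  have h3 := Set.ncard_insert_le S {Sᶜ}
  rw [Set.ncard_singleton] at h3
  omega

theorem r_gen (hmany : S_many) (hcore : S_coreF) (hfsm : S_fsm) (hpf : S_pfine)
    (hnf : S_nfine) (hsf : S_sfine) (hdiv : S_div) (hnpt : S_npt) (hspt : S_spt) (hsig : S_sig)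
    (hD : 2 ∈ 𝒟) (X : CMAV) (hX : GenT 𝒟 X) {κ : Type} [Finite κ]
    (f : X.H1 [⋀^κ]→ₗ[ℚ] ℚ) (hf : IsHodge X.per f) : R 𝒟 X κ f := by
  classical
  refine r_of_mono X ?_ f hf
  intro L _ _ _ _ j hj _ _ I hb
  let O : Finset (Set (Set (L ≃ₐ[ℚ] L))) :=
    Finset.univ.image fun i : X.I => Set.range (hs (X.factor i) j)
  have hmem : ∀ Q ∈ O, ∃ i, Q = Set.range (hs (X.factor i) j) := by
    intro Q hQ
    obtain ⟨i, -, h⟩ := Finset.mem_image.1 hQ
    exact ⟨i, h.symm⟩
  have hclo : ∀ i k, 2 < (Set.range (hs (X.factor i) j)).ncard →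
      2 < (Set.range (hs (X.factor k) j)).ncard →
      Comb.kerP (Set.range (hs (X.factor i) j)) = Comb.kerP (Set.range (hs (X.factor k) j)) →
      IntermediateField.normalClosure ℚ (X.factor i).E ℂ =
        IntermediateField.normalClosure ℚ (X.factor k).E ℂ := by
    intro i k h2 h2' hker
    exact le_antisymm
      (normalClosure_le (X.factor i) (X.factor k) j (hj i)
        (inj_of_admG hdiv hnpt hspt (hX.adm i) j (hj i) h2) hker.ge)
      (normalClosure_le (X.factor k) (X.factor i) j (hj k)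
        (inj_of_admG hdiv hnpt hspt (hX.adm k) j (hj k) h2') hker.le)
  have hbig : ∀ i k, 6 < finrank ℚ (X.factor i).E →
      2 < (Set.range (hs (X.factor i) j)).ncard → 2 < (Set.range (hs (X.factor k) j)).ncard →
      Comb.kerP (Set.range (hs (X.factor i) j)) = Comb.kerP (Set.range (hs (X.factor k) j)) →
      Set.range (hs (X.factor i) j) = Set.range (hs (X.factor k) j) := by
    intro i k h6 h2 h2' hker
    exact range_eq_of_sameType (X.factor i) (X.factor k) j
      (hX.two i k h6 (hclo i k h2 h2' hker))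
  refine algR_family hmany hcore hD j O ?_ ?_ ⟨?_, ?_⟩ ?_ X (fun k => St j (I k)) ?_ hb I
    (fun k => rfl)
  · intro Q hQ
    obtain ⟨i, rfl⟩ := hmem Q hQ
    exact fine_of_admG hfsm hpf hnf hsf hdiv hnpt hspt (hX.adm i) j (hj i)
  · intro Q hQ Q' hQ' hne
    obtain ⟨i, rfl⟩ := hmem Q hQ
    obtain ⟨k, rfl⟩ := hmem Q' hQ'
    rw [Set.disjoint_left]
    intro S hS hS'
    apply hne
    ext T
    constructor
    · intro hT
      obtain ⟨g, hg⟩ := trans_hs (X.factor i) j S hS T hT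
      rw [← hg]
      exact stable_hs (X.factor k) j g S hS'
    · intro hT
      obtain ⟨g, hg⟩ := trans_hs (X.factor k) j S hS' T hT
      rw [← hg]
      exact stable_hs (X.factor i) j g S hS
  · intro Q hQ Q' hQ' h6 h2' hker
    obtain ⟨i, rfl⟩ := hmem Q hQ
    obtain ⟨k, rfl⟩ := hmem Q' hQ'
    have h3 := ncard_hs (X.factor i) j (hj i)
    exact hbig i k (by omega) (by omega) h2' hker
  · intro Q hQ Q' hQ' Q'' hQ'' h2 h2' h2'' hker hker'
    obtain ⟨i, rfl⟩ := hmem Q hQ
    obtain ⟨k, rfl⟩ := hmem Q' hQ'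
    obtain ⟨l, rfl⟩ := hmem Q'' hQ''
    by_cases hi : 6 < finrank ℚ (X.factor i).E
    · exact Or.inl (hbig i k hi h2 h2' hker)
    by_cases hk : 6 < finrank ℚ (X.factor k).E
    · exact Or.inr (Or.inl (hbig k l hk h2' h2'' hker'))
    by_cases hl : 6 < finrank ℚ (X.factor l).E
    · exact Or.inr (Or.inl (hbig l k hl h2'' h2' hker'.symm).symm)
    have hne : ∀ i, 2 < (Set.range (hs (X.factor i) j)).ncard → finrank ℚ (X.factor i).E ≠ 2 := by
      intro i h h'
      have h3 := ncard_hs (X.factor i) j (hj i)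
      omega
    rcases hX.three i k l (hne i h2) (hne k h2') (hne l h2'') (not_lt.1 hi) (not_lt.1 hk)
      (not_lt.1 hl) (hclo i k h2 h2' hker) (hclo k l h2' h2'' hker') with h | h | h | h
    · exact Or.inl
        (range_eq_of_galois (X.factor i) (X.factor k) j (hj i) (not_lt.1 hi) h2 h2' hker h)
    · exact Or.inl (range_eq_of_sameType (X.factor i) (X.factor k) j h)
    · exact Or.inr (Or.inl (range_eq_of_sameType (X.factor k) (X.factor l) j h))
    · exact Or.inr (Or.inr (range_eq_of_sameType (X.factor i) (X.factor l) j h))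
  · intro Q hQ h6 x hx N hN hst
    obtain ⟨i, rfl⟩ := hmem Q hQ
    obtain ⟨φ, rfl⟩ := hx
    have h3 := ncard_hs (X.factor i) j (hj i)
    have hprim : ¬ SepT (X.factor i) := by
      intro hp
      have h2' : 2 < (Set.range (hs (X.factor i) j)).ncard := by omega
      obtain ⟨T, hT, hT1, hT2⟩ := exists_pair h2' (S := hs (X.factor i) j φ) ⟨φ, rfl⟩
      obtain ⟨h, -, h1, h2⟩ := (hspt (X.factor i) hp L j (hj i)).1 _ ⟨φ, rfl⟩ T hT hT1 hT2
      refine no_stab j (trans_hs (X.factor i) j) ?_ ⟨_, ⟨φ, rfl⟩, h1⟩ ⟨T, hT, h2⟩ ⟨φ, rfl⟩ hN hst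
      rintro _ ⟨ψ, rfl⟩
      exact isHalf_hs (X.factor i) j ψ
    obtain ⟨M, hM, h4⟩ := hsig (X.factor i) L j (hj i)
      (inj_of_admG hdiv hnpt hspt (hX.adm i) j (hj i) (by omega)) N hN φ hst
    exact ⟨M, hX.sig i (by omega) hprim M hM, h4⟩
  · intro k
    exact ⟨_, Finset.mem_image.2 ⟨(I k).1, Finset.mem_univ _, rfl⟩, (I k).2, rfl⟩

end

end Pool.Agent.Q60.D3H
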