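import Mathlib
import Pool.Agent.Q60.D3H.Fine
import Pool.Agent.Q180.UV.MainA
import Pool.Agent.Q180.UV.Real

/-!
# Hodge classes on products of simple abelian varieties of prime dimension: assembly with the main
theorem of project UV
-/

set_option linter.unusedSectionVars false
set_option linter.unusedVariables false

namespace Pool.Agent.Q60.D3H

open NumberField Module Pool.Agent.H204R3.CM
open Pool.Agent.W547.KB (CMPair CMAV)
open Pool.Agent.W547.LN (SameType)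
open Pool.Agent.Q60.D3 (AV IsHom IsSimple IsCM IsIsogenousToProd)
open Pool.Agent.Q60.D3E (IsoCM HasCMType InP inP_zero isoCM_single finrank_of_type)
open Pool.Agent.Q180.WT (Gen)
open Pool.Agent.Q180.UW (IsUnitary)
open Pool.Agent.Q180.UV (IsReal dat_real main_dat)
open Pool.Agent.Q180.UV.Close (Dat dat_old)
open Pool.Agent.Q60.D3G

variable {𝒟 : Set ℕ}

/-- The abelian varieties which may be added as factors. -/
def Extra (𝒟 : Set ℕ) (A : AV) : Prop :=
  ∀ 𝒞 : AV → Prop, (∀ B, IsCM B → finrank ℂ B.T = 1 → 𝒞 B) → Dat (WW 𝒟) 𝒞 A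

/-- **The theorem on Hodge classes.** -/
theorem hodge_dat (hD : 2 ∈ 𝒟) {ι : Type} [Finite ι] {X : AV} {A : ι → AV} (hX : IsIsogenousToProd X A)
    (hA : ∀ i, (IsSimple (A i) ∧ finrank ℂ (A i).T ≤ 3) ∨
      (IsSimple (A i) ∧ (finrank ℂ (A i).T).Prime ∧ ∀ M, KMult (A i) M → M ∈ 𝒟) ∨
      (∃ M ∈ 𝒟, IsUnitary (A i) 2 M) ∨
      IsReal (A i) ∨ (∃ B, HasCMType (A i) B ∧ PrimT B) ∨ Extra 𝒟 (A i))
    (htwo : ∀ i k (B B' : CMPair), 3 < finrank ℂ (A i).T → HasCMType (A i) B →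
      HasCMType (A k) B' → IntermediateField.normalClosure ℚ B.E ℂ =
        IntermediateField.normalClosure ℚ B'.E ℂ → SameType B B')
    (hthree : ∀ i k l (B B' B'' : CMPair), finrank ℂ (A i).T ≤ 3 → finrank ℂ (A k).T ≤ 3 →
      finrank ℂ (A l).T ≤ 3 → HasCMType (A i) B → HasCMType (A k) B' →
      HasCMType (A l) B'' →
      IntermediateField.normalClosure ℚ B.E ℂ = IntermediateField.normalClosure ℚ B'.E ℂ →
      IntermediateField.normalClosure ℚ B'.E ℂ = IntermediateField.normalClosure ℚ B''.E ℂ →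
      IsGalois ℚ B.E ∨ SameType B B' ∨ SameType B' B'' ∨ SameType B B'')
    {κ : Type} [Finite κ] (f : X.H [⋀^κ]→ₗ[ℚ] ℚ) : IsHodge X.per f ↔ Gen 𝒟 X κ f := by
  refine ⟨fun hf => ?_, fun hf => Pool.Agent.Q247.WT.conv 𝒟 X κ f hf inferInstance⟩
  let 𝒮 : Set CMPair := {B | ∃ i, HasCMType (A i) B ∧
    Adm B ∧ (3 < finrank ℂ (A i).T → ¬ PrimT B → ∀ M, SigB B M → M ∈ 𝒟)}
  have hS : AdmS 𝒟 𝒮 := by
    refine ⟨?_, ?_, ?_, ?_⟩
    · rintro B ⟨i, hi, h, -⟩
      exact h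
    · rintro B ⟨i, hi, h, h'⟩ h6
      rw [finrank_of_type hi] at h6
      exact h' (by omega)
    · rintro B ⟨i, hi, -⟩ B' ⟨k, hk, -⟩ h6 hc
      rw [finrank_of_type hi] at h6
      exact htwo i k B B' (by omega) hi hk hc
    · rintro B ⟨i, hi, -⟩ B' ⟨k, hk, -⟩ B'' ⟨l, hl, -⟩ h6 h6' h6'' h h'
      rw [finrank_of_type hi] at h6
      rw [finrank_of_type hk] at h6'
      rw [finrank_of_type hl] at h6''
      exact hthree i k l B B' B'' (by omega) (by omega) (by omega) hi hk hl h h'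
  have hone : ∀ (e M : ℕ) (B : AV), (e, M) ∈ WW 𝒟 → IsCM B → 2 * finrank ℂ B.T = e →
      Cl 𝒮 B := by
    intro e M B he hcm hd
    have h1 : e = 2 := he.1
    have h2 : finrank ℂ B.T = 1 := by omega
    obtain ⟨B', hB'⟩ := Pool.Agent.Q60.D3E.cls' B (Pool.Agent.Q261.D3E.one B h2) hcm
      (by rw [h2]; exact one_pos)
    refine Or.inr ⟨B', hB', Or.inr ?_⟩
    rw [finrank_of_type hB', h2]
  have huni := Pool.Agent.Q58.D3G.uni
  have hkms := Pool.Agent.Q154.D3H.kms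
  have humu := Pool.Agent.Q261.D3H.umu
  have hA' : ∀ i, Dat (WW 𝒟) (Cl 𝒮) (A i) := by
    intro i
    rcases hA i with ⟨hs, h3⟩ | ⟨hs, hp, hM⟩ | ⟨M, hM, hu⟩ | h | ⟨B, hB, hprt⟩ | h
    · refine dat_old _ _ _ ?_
      by_cases hcm : IsCM (A i)
      · refine Or.inl ⟨hcm, ?_⟩
        by_cases h0 : finrank ℂ (A i).T = 0
        · exact Or.inl h0
        · obtain ⟨B, hB⟩ := Pool.Agent.Q60.D3E.cls' (A i) hs hcm (Nat.pos_of_ne_zero h0)
          refine Or.inr ⟨B, hB, Or.inl ⟨i, hB, Or.inl ?_, fun h => absurd h (by omega)⟩⟩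
          rw [finrank_of_type hB]
          omega
      · by_cases hu : ∃ e M, IsUnitary (A i) e M
        · obtain ⟨e, M, hu⟩ := hu
          exact Or.inr (Or.inl ⟨2, 2, ⟨rfl, hD⟩, ((huni (A i) e M hu).1 h3).2⟩)
        · refine Or.inr (Or.inr (Or.inl ⟨hs, ?_, hcm, hu⟩))
          have h0 : finrank ℂ (A i).T ≠ 0 := fun h => hcm (isCM_zero h)
          have h1 : finrank ℂ (A i).T = 1 ∨ finrank ℂ (A i).T = 2 ∨ finrank ℂ (A i).T = 3 := by
            omega
          rcases h1 with h1 | h1 | h1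
          · exact Or.inl h1
          · rw [h1]
            exact Or.inr Nat.prime_two
          · rw [h1]
            exact Or.inr Nat.prime_three
    · refine dat_old _ _ _ ?_
      by_cases hcm : IsCM (A i)
      · refine Or.inl ⟨hcm, ?_⟩
        obtain ⟨B, hB⟩ := Pool.Agent.Q60.D3E.cls' (A i) hs hcm hp.pos
        refine Or.inr ⟨B, hB, Or.inl ⟨i, hB, ?_, fun _ _ M hMB => hM M (hkms (A i) B hB M hMB)⟩⟩
        by_cases h3 : finrank ℂ (A i).T ≤ 3
        · refine Or.inl ?_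
          rw [finrank_of_type hB]
          omega
        · refine Or.inr (Or.inl ⟨finrank ℂ (A i).T, hp, ?_, finrank_of_type hB⟩)
          by_contra h5
          have h4 : finrank ℂ (A i).T = 4 := by omega
          rw [h4] at hp
          revert hp
          decide
      · by_cases hu : ∃ e M, IsUnitary (A i) e M
        · obtain ⟨e, M, hu⟩ := hu
          have h1 := (huni (A i) e M hu).2 hp
          subst h1
          obtain ⟨M', hM', hu'⟩ := humu (A i) M hu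
          exact Or.inr (Or.inl ⟨2, M', ⟨rfl, hM M' hM'⟩, hu'⟩)
        · exact Or.inr (Or.inr (Or.inl ⟨hs, Or.inr hp, hcm, hu⟩))
    · exact dat_old _ _ _ (Or.inr (Or.inl ⟨2, M, ⟨rfl, hM⟩, hu⟩))
    · exact dat_real _ _ _ h
    · refine dat_old _ _ _ ?_
      refine Or.inl ⟨Pool.Agent.Q237.D3E.iscm (A i) ⟨Unit, fun _ => B⟩ (isoCM_single hB), ?_⟩
      refine Or.inr ⟨B, hB, Or.inl ⟨i, hB, Or.inr (Or.inr hprt), fun _ h => absurd hprt h⟩⟩
    · exact h (Cl 𝒮) fun B hcm hd => hone 2 2 B ⟨rfl, hD⟩ hcm (by rw [hd])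
  have h7 := (main_dat (WW 𝒟) (Cl 𝒮) hone ι X A hX hA' κ f).1 hf
  exact gen_of_genU Pool.Agent.Q58.D3G.w2w Pool.Agent.Q58.D3G.iso
    (fun {Y} hY {κ} _ f hf => gen_of_inP lem hD hS hY f hf) f h7 inferInstance

end Pool.Agent.Q60.D3H
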