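import Mathlib
import Pool.Agent.Q60.D3H.TopG
import Pool.Agent.Q225.D3H.Nfine
import Pool.Agent.Q144.D3H.Sfine
import Pool.Agent.Q144.D3H.Npt
import Pool.Agent.Q144.D3H.Spt

/-!
# Hodge classes on products of simple abelian varieties of prime dimension and of CM abelian varieties
of generic type
-/

namespace Pool.Agent.Q60.D3H

open Module Pool.Agent.H204R3.CM
open Pool.Agent.W547.KB (CMPair CMAV)
open Pool.Agent.W547.LN (SameType)
open Pool.Agent.Q60.D3 (AV IsHom IsSimple IsCM IsIsogenousToProd)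
open Pool.Agent.Q60.D3E (HasCMType)
open Pool.Agent.Q180.WT (Gen)
open Pool.Agent.Q180.UW (IsUnitary)
open Pool.Agent.Q180.UV (IsReal)
open Pool.Agent.Q60.D3G

/-- The lemmas. -/
theorem lemG : LemG where
  nf := Pool.Agent.Q225.D3H.nfine Pool.Agent.Q225.D3G.line
  sf := Pool.Agent.Q144.D3H.sfine
  npt := Pool.Agent.Q144.D3H.npt
  spt := Pool.Agent.Q144.D3H.spt

/-- **The theorem on Hodge classes on products of abelian varieties of CM types.** -/
theorem cmG {𝒟 : Set ℕ} (hD : 2 ∈ 𝒟) (X : CMAV) (hX : GenT 𝒟 X) {κ : Type} [Finite κ]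
    (f : X.H1 [⋀^κ]→ₗ[ℚ] ℚ) (hf : IsHodge X.per f) : R 𝒟 X κ f :=
  r_gen lem.many lem.core lem.fsm lem.pf lemG.nf lemG.sf lem.div lemG.npt lemG.spt lem.sig hD X hX
    f hf

end Pool.Agent.Q60.D3H
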