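import Mathlib
import Pool.Agent.Q60.D3H.FineG
import Pool.Agent.Q180.UV.Fin
import Pool.Agent.Q154.UV.Nrm
import Pool.Agent.Q177.UV.K4
import Pool.Agent.Q177.UV.MEMU
import Pool.Agent.Q176.UV.Memr
import Pool.Agent.Q176.UV.Wt22
import Pool.Agent.Q211.UV.Real2

/-!
# Hodge classes on products of abelian varieties: the final list of factors
-/

namespace Pool.Agent.Q60.D3H

open Module Pool.Agent.H204R3.CM
open Pool.Agent.W547.KB (CMPair CMAV)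
open Pool.Agent.W547.LN (SameType)
open Pool.Agent.Q60.D3 (AV IsHom IsSimple IsCM IsIsogenousToProd)
open Pool.Agent.Q60.D3E (HasCMType)
open Pool.Agent.Q180.WT (Gen)
open Pool.Agent.Q180.UW (IsUnitary)
open Pool.Agent.Q180.UV (IsReal IsReal2 IsBal IsLefR IsLefU dat_real2 dat_bal dat_lefr dat_lefu)
open Pool.Agent.Q60.D3G

variable {𝒟 : Set ℕ}

theorem extra_real2 {A : AV} (h : IsReal2 A) : Extra 𝒟 A := fun _ _ =>
  dat_real2 Pool.Agent.Q211.UV.real2 _ _ A h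

theorem extra_bal (h3 : 3 ∈ 𝒟) {A : AV} (h : IsBal A 2) : Extra 𝒟 A := fun _ _ =>
  dat_bal Pool.Agent.Q176.UV.wt22' _ _ A 2 ⟨rfl, h3⟩ h

theorem extra_lefr {A : AV} (h : IsLefR A) : Extra 𝒟 A := fun _ _ =>
  dat_lefr Pool.Agent.Q154.UV.nrm Pool.Agent.Q177.UV.K4.k4 Pool.Agent.Q176.UV.memr _ _ A h

theorem extra_lefu {M : ℕ} (hM : M ∈ 𝒟) {A : AV} (h : IsLefU A 2 M) : Extra 𝒟 A := fun _ _ =>
  dat_lefu Pool.Agent.Q154.UV.nrm Pool.Agent.Q177.UV.K4.k4 Pool.Agent.Q177.UV.MEMU.memu _ _ A 2 M ⟨rfl, hM⟩ h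

/-- **The theorem on Hodge classes.** -/
theorem last (hD : 2 ∈ 𝒟) {ι : Type} [Finite ι] {X : AV} {A : ι → AV} (hX : IsIsogenousToProd X A)
    (hA : ∀ i, (IsSimple (A i) ∧ finrank ℂ (A i).T ≤ 3) ∨
      (IsSimple (A i) ∧ (finrank ℂ (A i).T).Prime ∧ ∀ M, KMult (A i) M → M ∈ 𝒟) ∨
      (∃ M ∈ 𝒟, IsUnitary (A i) 2 M) ∨
      (3 ∈ 𝒟 ∧ IsBal (A i) 2) ∨
      IsReal (A i) ∨ IsReal2 (A i) ∨
      (∃ B, HasCMType (A i) B ∧ ((NonDegPrim B ∧ ∀ M, KMult (A i) M → M ∈ 𝒟) ∨ SepT B)) ∨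
      IsLefR (A i) ∨ ∃ M ∈ 𝒟, IsLefU (A i) 2 M)
    (htwo : ∀ i k (B B' : CMPair), 3 < finrank ℂ (A i).T → HasCMType (A i) B →
      HasCMType (A k) B' → IntermediateField.normalClosure ℚ B.E ℂ =
        IntermediateField.normalClosure ℚ B'.E ℂ → SameType B B')
    (hthree : ∀ i k l (B B' B'' : CMPair), finrank ℂ (A i).T ≤ 3 → finrank ℂ (A k).T ≤ 3 →
      finrank ℂ (A l).T ≤ 3 → HasCMType (A i) B → HasCMType (A k) B' →
      HasCMType (A l) B'' →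
      IntermediateField.normalClosure ℚ B.E ℂ = IntermediateField.normalClosure ℚ B'.E ℂ →
      IntermediateField.normalClosure ℚ B'.E ℂ = IntermediateField.normalClosure ℚ B''.E ℂ →
      IsGalois ℚ B.E ∨ SameType B B' ∨ SameType B' B'' ∨ SameType B B'')
    {κ : Type} [Finite κ] (f : X.H [⋀^κ]→ₗ[ℚ] ℚ) : IsHodge X.per f ↔ Gen 𝒟 X κ f := by
  refine hodge_gen lemG hD hX (fun i => ?_) htwo hthree f
  rcases hA i with h | h | h | h | h | h | h | h | ⟨M, hM, h⟩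
  · exact Or.inl h
  · exact Or.inr (Or.inl h)
  · exact Or.inr (Or.inr (Or.inl h))
  · exact Or.inr (Or.inr (Or.inr (Or.inr (Or.inr (extra_bal h.1 h.2)))))
  · exact Or.inr (Or.inr (Or.inr (Or.inl h)))
  · exact Or.inr (Or.inr (Or.inr (Or.inr (Or.inr (extra_real2 h)))))
  · exact Or.inr (Or.inr (Or.inr (Or.inr (Or.inl h))))
  · exact Or.inr (Or.inr (Or.inr (Or.inr (Or.inr (extra_lefr h)))))
  · exact Or.inr (Or.inr (Or.inr (Or.inr (Or.inr (extra_lefu hM h)))))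

end Pool.Agent.Q60.D3H
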